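import Pool.Agent.Run7.h987.BL.Lat

/-!
# Compact semialgebraic sets have the measure of their interior (helper987)

The lemma `zero_null` is copied from the starting file `Pool/Agent/H810R3/Tub/Poly.lean`.
-/

set_option autoImplicit false
set_option maxHeartbeats 400000

open MeasureTheory Set Filter Topology ENNReal NNReal Metric

namespace Pool.Agent.Run7.h987.BL

/-- The zero set of a nonzero real polynomial is a null set. -/
theorem zero_null (n : ℕ) : ∀ P : MvPolynomial (Fin n) ℝ, P ≠ 0 →
    volume {y : Fin n → ℝ | MvPolynomial.eval y P = 0} = 0 := by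
  induction n with
  | zero =>
    intro P hP
    have : {y : Fin 0 → ℝ | MvPolynomial.eval y P = 0} = ∅ := by
      ext y
      simp only [Set.mem_ofPred_eq, Set.mem_empty_iff_false, iff_false]
      intro h
      apply hP
      apply MvPolynomial.funext
      intro z
      have : z = y := Subsingleton.elim _ _
      rw [this, h, map_zero]
    rw [this, measure_empty]
  | succ n ih =>
    intro P hP
    set f := MvPolynomial.finSuccEquiv ℝ n P with hf
    have hf0 : f ≠ 0 := by
      rw [hf]; exact (map_ne_zero_iff _ (MvPolynomial.finSuccEquiv ℝ n).injective).2 hP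
    obtain ⟨m, hm⟩ : ∃ m, f.coeff m ≠ 0 := by
      by_contra hcon
      push Not at hcon
      exact hf0 (Polynomial.ext (by simpa using hcon))
    have hnull := ih (f.coeff m) hm
    set S := {y : Fin (n + 1) → ℝ | MvPolynomial.eval y P = 0} with hS
    set S' := {z : ℝ × (Fin n → ℝ) | MvPolynomial.eval (Fin.cons z.1 z.2 : Fin (n + 1) → ℝ) P = 0} with hS'
    have hcont : Continuous (fun z : ℝ × (Fin n → ℝ) =>
        MvPolynomial.eval (Fin.cons z.1 z.2 : Fin (n + 1) → ℝ) P) := by
      refine (MvPolynomial.continuous_eval P).comp ?_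
      refine continuous_pi ?_
      intro i
      refine Fin.cases ?_ (fun i => ?_) i
      · simp only [Fin.cons_zero]; fun_prop
      · simp only [Fin.cons_succ]; fun_prop
    have hmeas : MeasurableSet S' := (isClosed_singleton.preimage hcont).measurableSet
    have hpre : S = (MeasurableEquiv.piFinSuccAbove (fun _ => ℝ) 0) ⁻¹' S' := by
      ext y
      simp only [hS, hS', Set.mem_ofPred_eq, Set.mem_preimage]
      have : (Fin.cons (((MeasurableEquiv.piFinSuccAbove (fun _ => ℝ) 0) y).1)
          (((MeasurableEquiv.piFinSuccAbove (fun _ => ℝ) 0) y).2) :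
          Fin (n + 1) → ℝ) = y := by
        funext j
        refine Fin.cases ?_ (fun j => ?_) j
        · rfl
        · rfl
      rw [this]
    rw [hpre, (volume_preserving_piFinSuccAbove (fun _ => ℝ) 0).measure_preimage_equiv]
    have hswap : volume S' = (volume : Measure ((Fin n → ℝ) × ℝ)) (Prod.swap ⁻¹' S') := by
      have := (Measure.measurePreserving_swap (μ := (volume : Measure (Fin n → ℝ)))
        (ν := (volume : Measure ℝ))).measure_preimage hmeas.nullMeasurableSet
      exact this.symm
    rw [hswap, Measure.volume_eq_prod, Measure.measure_prod_null (measurable_swap hmeas)]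
    have hae : ∀ᵐ y : Fin n → ℝ, y ∉ {y : Fin n → ℝ |
        MvPolynomial.eval y (f.coeff m) = 0} := measure_eq_zero_iff_ae_notMem.1 hnull
    filter_upwards [hae] with y hy
    have hy' : MvPolynomial.eval y (f.coeff m) ≠ 0 := hy
    have hmap : f.map (MvPolynomial.eval y) ≠ 0 := by
      intro h0
      apply hy'
      have := congrArg (fun q => Polynomial.coeff q m) h0
      simpa [Polynomial.coeff_map] using this
    have hfin : (Prod.mk y ⁻¹' (Prod.swap ⁻¹' S')).Finite := by
      refine Set.Finite.subset (Polynomial.rootSet_finite (f.map (MvPolynomial.eval y)) ℝ) ?_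
      intro a ha
      rw [Polynomial.mem_rootSet]
      refine ⟨hmap, ?_⟩
      have h1 := MvPolynomial.eval_eq_eval_mv_eval' y a P
      rw [Polynomial.coe_aeval_eq_eval, ← hf] at *
      rw [← h1]
      exact ha
    exact hfin.measure_zero volume


/-- the measure of a semialgebraic set is at most the measure of its interior -/
theorem semi_vol {k : ℕ} (A : List (List (MvPolynomial (Fin k) ℝ) × List (MvPolynomial (Fin k) ℝ)))
    {Om : Set (E k)} (hA : ∀ x : E k, x ∈ Om ↔ ∃ c ∈ A,
      (∀ p ∈ c.1, MvPolynomial.eval (fun i => x i) p = 0) ∧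
      ∀ q ∈ c.2, 0 < MvPolynomial.eval (fun i => x i) q) :
    volume Om ≤ volume (interior Om) := by
  set S : Set (MvPolynomial (Fin k) ℝ) := {p | (∃ c ∈ A, p ∈ c.1) ∧ p ≠ 0} with hS
  have hSfin : S.Finite := by
    refine Set.Finite.subset (List.finite_toSet (A.flatMap fun c => c.1)) ?_
    rintro p ⟨⟨c, hc, hp⟩, _⟩
    exact List.mem_flatMap.mpr ⟨c, hc, hp⟩
  set Z : Set (E k) := ⋃ p ∈ S, {x : E k | MvPolynomial.eval (fun i => x i) p = 0} with hZ
  have hZnull : volume Z = 0 := by
    rw [hZ, measure_biUnion_null_iff hSfin.countable]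
    intro p hp
    have h1 := zero_null k p hp.2
    have hcl : MeasurableSet {y : Fin k → ℝ | MvPolynomial.eval y p = 0} :=
      (isClosed_singleton.preimage (MvPolynomial.continuous_eval p)).measurableSet
    have h2 := (PiLp.volume_preserving_ofLp (Fin k)).measure_preimage hcl.nullMeasurableSet
    rw [h1] at h2
    exact h2
  have hsub : Om ⊆ interior Om ∪ Z := by
    intro x hx
    by_cases hxZ : x ∈ Z
    · exact Or.inr hxZ
    · left
      obtain ⟨c, hc, h1, h2⟩ := (hA x).mp hx
      have hzero : ∀ p ∈ c.1, p = 0 := by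
        intro p hp
        by_contra hp0
        apply hxZ
        rw [hZ, mem_iUnion₂]
        exact ⟨p, ⟨⟨c, hc, hp⟩, hp0⟩, h1 p hp⟩
      rw [mem_interior]
      refine ⟨⋂ q ∈ {q | q ∈ c.2}, {y : E k | 0 < MvPolynomial.eval (fun i => y i) q}, ?_, ?_, ?_⟩
      · intro y hy
        rw [hA]
        refine ⟨c, hc, fun p hp => ?_, fun q hq => ?_⟩
        · rw [hzero p hp, map_zero]
        · exact mem_iInter₂.mp hy q hq
      · refine (List.finite_toSet c.2).isOpen_biInter fun q _ => ?_
        refine isOpen_lt continuous_const ?_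
        have h3 := PiLp.continuous_ofLp 2 (fun _ : Fin k => ℝ)
        exact (MvPolynomial.continuous_eval q).comp h3
      · exact mem_iInter₂.mpr fun q hq => h2 q hq
  calc volume Om ≤ volume (interior Om ∪ Z) := measure_mono hsub
    _ ≤ volume (interior Om) + volume Z := measure_union_le _ _
    _ = volume (interior Om) := by rw [hZnull, add_zero]

end Pool.Agent.Run7.h987.BL
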