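import Pool.Agent.Run7.h987.BL.Spec

/-!
# Partitions of unity on the frequency side, decomposition, separation (helper987)
-/

set_option autoImplicit false
set_option linter.unusedSectionVars false

open MeasureTheory Set SchwartzMap
open scoped FourierTransform SchwartzMap ContDiff Pointwise Topology Manifold

noncomputable section

namespace Pool.Agent.Run7.h987.BL

variable {V : Type*} [NormedAddCommGroup V] [InnerProductSpace ℝ V] [FiniteDimensional ℝ V]
  [MeasurableSpace V] [BorelSpace V]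

/-- finite smooth partition of unity near a compact set, as Schwartz functions -/
lemma exists_part {ι : Type} [Fintype ι] {K : Set V} (hK : IsCompact K) (U : ι → Set V)
    (hU : ∀ i, IsOpen (U i)) (hb : ∀ i, Bornology.IsBounded (U i)) (hKU : K ⊆ ⋃ i, U i) :
    ∃ χ : ι → 𝓢(V, ℂ), (∀ i, tsupport (χ i) ⊆ U i) ∧
      ∃ O : Set V, IsOpen O ∧ K ⊆ O ∧ ∀ x ∈ O, ∑ i, χ i x = 1 := by
  have hUo : IsOpen (⋃ i, U i) := isOpen_iUnion hU
  obtain ⟨ε, hε, hεK⟩ := hK.exists_cthickening_subset_open hUo hKU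
  obtain ⟨f, hf⟩ := SmoothPartitionOfUnity.exists_isSubordinate 𝓘(ℝ, V)
    (Metric.isClosed_cthickening (δ := ε) (E := K)) U hU hεK
  have hcomp : ∀ i, HasCompactSupport (f i : V → ℝ) := by
    intro i
    refine Metric.isCompact_of_isClosed_isBounded (isClosed_tsupport _) ?_
    exact (hb i).subset (hf i)
  have hcomp' : ∀ i, HasCompactSupport (Complex.ofRealCLM ∘ (f i : V → ℝ)) :=
    fun i => (hcomp i).comp_left rfl
  have hsm : ∀ i, ContDiff ℝ ∞ (Complex.ofRealCLM ∘ (f i : V → ℝ)) := by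
    intro i
    exact Complex.ofRealCLM.contDiff.comp (f i).contMDiff.contDiff
  refine ⟨fun i => (hcomp' i).toSchwartzMap (hsm i), ?_, Metric.thickening ε K,
    Metric.isOpen_thickening, Metric.self_subset_thickening hε K, ?_⟩
  · intro i
    refine subset_trans ?_ (hf i)
    exact tsupport_comp_subset (g := Complex.ofRealCLM) rfl (f i : V → ℝ)
  · intro x hx
    have h1 := f.sum_eq_one (Metric.thickening_subset_cthickening _ _ hx)
    rw [finsum_eq_sum_of_fintype] at h1
    change ∑ i, ((f i x : ℝ) : ℂ) = 1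
    rw [← Complex.ofReal_sum, h1]
    simp

/-- bump function as a Schwartz function -/
lemma exists_bump {K W : Set V} (hK : IsCompact K) (hW : IsOpen W) (hKW : K ⊆ W) :
    ∃ η : 𝓢(V, ℂ), tsupport η ⊆ W ∧ IsCompact (tsupport η) ∧
      ∃ O : Set V, IsOpen O ∧ K ⊆ O ∧ ∀ x ∈ O, η x = 1 := by
  obtain ⟨r, hr⟩ := hK.isBounded.subset_ball 0
  obtain ⟨χ, h1, O, hO, hKO, h2⟩ := exists_part (ι := Unit) hK
    (fun _ => W ∩ Metric.ball 0 r) (fun _ => hW.inter Metric.isOpen_ball)
    (fun _ => Metric.isBounded_ball.subset inter_subset_right)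
    (fun x hx => mem_iUnion.mpr ⟨(), hKW hx, hr hx⟩)
  refine ⟨χ (), (h1 ()).trans inter_subset_left, ?_, O, hO, hKO, fun x hx => ?_⟩
  · refine Metric.isCompact_of_isClosed_isBounded (isClosed_tsupport _) ?_
    exact Metric.isBounded_ball.subset ((h1 ()).trans inter_subset_right)
  · simpa using h2 x hx

lemma fourier_sub' (f g : 𝓢(V, ℂ)) : 𝓕 (f - g) = 𝓕 f - 𝓕 g := by
  rw [sub_eq_add_neg, FourierTransform.fourier_add, FourierTransform.fourier_neg,
    sub_eq_add_neg]

lemma disjoint_of_eq_zero_on {g : V → ℂ} {O S : Set V} (hO : IsOpen O) (hSO : S ⊆ O)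
    (h : ∀ x ∈ O, g x = 0) : Disjoint (tsupport g) S := by
  refine Disjoint.mono_right hSO ?_
  rw [Set.disjoint_left]
  intro x hx hxO
  rw [tsupport, mem_closure_iff] at hx
  obtain ⟨y, hyO, hy⟩ := hx O hO hxO
  exact hy (h y hyO)

/-- the spectrum of `e` is in `K` and the filters sum to one near `K`: then `e` is the sum of the
filtered functions, in particular it vanishes if they all do -/
lemma eq_zero_of_filt {ι : Type} [Fintype ι] {K O : Set V} {e : V → ℂ} {C : ℝ} (he : BC e C)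
    (hS : SpecIn e K) (χ : ι → 𝓢(V, ℂ)) (hO : IsOpen O) (hKO : K ⊆ O)
    (h1 : ∀ x ∈ O, ∑ i, χ i x = 1) (h0 : ∀ i t, filt (χ i) e t = 0) : ∀ t, e t = 0 := by
  refine eq_zero_of_forall he fun u => ?_
  have h2 : ∀ i, ∫ t, e t * 𝓕 (pm u (χ i)) t = 0 := by
    intro i
    rw [← integral_filt he]
    simp [h0]
  set r : 𝓢(V, ℂ) := u - ∑ i, pm u (χ i) with hr
  have h3 : ∫ t, e t * 𝓕 r t = 0 := by
    apply hS
    refine disjoint_of_eq_zero_on hO hKO fun x hx => ?_
    have : r x = u x - ∑ i, u x * χ i x := by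
      rw [hr]
      simp
    rw [this, ← Finset.mul_sum, h1 x hx]
    simp
  have h4 : u = r + ∑ i, pm u (χ i) := by rw [hr]; simp
  have h5 : ∀ t, 𝓕 u t = 𝓕 r t + ∑ i, 𝓕 (pm u (χ i)) t := by
    intro t
    conv_lhs => rw [h4]
    rw [FourierTransform.fourier_add, FourierTransform.fourier_sum]
    simp
  calc ∫ t, e t * 𝓕 u t = ∫ t, (e t * 𝓕 r t + ∑ i, e t * 𝓕 (pm u (χ i)) t) := by
        congr 1
        ext t
        rw [h5, mul_add, Finset.mul_sum]
    _ = 0 := by
        rw [integral_add (he.integrable _) (integrable_finsetSum _ fun i _ => he.integrable _),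
          integral_finsetSum _ fun i _ => he.integrable _, h3]
        simp [h2]

/-- reproducing property -/
lemma filt_eq_self {K O : Set V} {e : V → ℂ} {C : ℝ} (he : BC e C) (hS : SpecIn e K)
    (η : 𝓢(V, ℂ)) (hO : IsOpen O) (hKO : K ⊆ O) (h1 : ∀ x ∈ O, η x = 1) :
    ∀ t, filt η e t = e t := by
  have hbc := filt_bc he η
  have h0 : ∀ t, filt η e t - e t = 0 := by
    refine eq_zero_of_forall (C := (C * ∫ w, ‖𝓕 η w‖) + C)
      ⟨hbc.cont.sub he.cont, fun t => (norm_sub_le _ _).trans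
        (add_le_add (hbc.bdd t) (he.bdd t))⟩ fun u => ?_
    simp only [sub_mul]
    rw [integral_sub (hbc.integrable _) (he.integrable _), integral_filt he]
    rw [← integral_sub (he.integrable _) (he.integrable _)]
    have h2 := hS (pm u η - u) (disjoint_of_eq_zero_on hO hKO fun x hx => by
      simp [h1 x hx])
    rw [← h2]
    congr 1
    ext t
    rw [fourier_sub']
    simp [mul_sub]
  exact fun t => sub_eq_zero.mp (h0 t)

/-- separation of spectra -/
lemma eq_zero_of_sum {ι : Type} [Fintype ι] [DecidableEq ι] {D : ι → Set V} {g : ι → V → ℂ}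
    {C : ι → ℝ}
    (hg : ∀ i, BC (g i) (C i)) (hS : ∀ i, SpecIn (g i) (D i)) (hD : ∀ i, IsCompact (D i))
    (hdisj : Pairwise fun i j => Disjoint (D i) (D j)) (h0 : ∀ t, ∑ i, g i t = 0) :
    ∀ i t, g i t = 0 := by
  intro i0
  have hW : IsOpen (⋃ i ∈ (Finset.univ.erase i0 : Finset ι), D i)ᶜ := by
    rw [isOpen_compl_iff]
    exact (Finset.univ.erase i0).finite_toSet.isClosed_biUnion fun i _ => (hD i).isClosed
  have hKW : D i0 ⊆ (⋃ i ∈ (Finset.univ.erase i0 : Finset ι), D i)ᶜ := by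
    intro x hx hx2
    rw [mem_iUnion₂] at hx2
    obtain ⟨i, hi, hxi⟩ := hx2
    rw [Finset.mem_erase] at hi
    exact Set.disjoint_left.mp (hdisj hi.1) hxi hx
  obtain ⟨η, hη1, -, O, hO, hKO, hη2⟩ := exists_bump (hD i0) hW hKW
  refine eq_zero_of_forall (hg i0) fun u => ?_
  have h1 : ∀ i, i ≠ i0 → ∫ t, g i t * 𝓕 (pm u η) t = 0 := by
    intro i hi
    apply hS i
    rw [Set.disjoint_left]
    intro x hx hxi
    have := hη1 (tsupport_pm_right u η hx)
    apply this
    rw [mem_iUnion₂]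
    exact ⟨i, by simp [hi], hxi⟩
  have h2 : ∫ t, g i0 t * 𝓕 (u - pm u η) t = 0 :=
    hS i0 _ (disjoint_of_eq_zero_on hO hKO fun x hx => by simp [hη2 x hx])
  have h3 : ∑ i, ∫ t, g i t * 𝓕 (pm u η) t = 0 := by
    rw [← integral_finsetSum _ fun i _ => (hg i).integrable _]
    simp [← Finset.sum_mul, h0]
  rw [Finset.sum_eq_single_of_mem i0 (Finset.mem_univ _) fun i _ hi => h1 i hi] at h3
  have h4 : ∀ t, g i0 t * 𝓕 u t = g i0 t * 𝓕 (u - pm u η) t + g i0 t * 𝓕 (pm u η) t := by
    intro t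
    rw [fourier_sub']
    simp
    ring
  simp only [h4]
  rw [integral_add ((hg i0).integrable _) ((hg i0).integrable _), h2, h3, add_zero]

end Pool.Agent.Run7.h987.BL
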