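import Pool.Agent.Run7.h987.BL.Wf

/-!
# The transfer theorem (helper987)
-/

set_option autoImplicit false
set_option maxHeartbeats 800000
set_option linter.unusedSectionVars false

open MeasureTheory Set SchwartzMap
open scoped FourierTransform SchwartzMap ContDiff Pointwise Topology LineDeriv

noncomputable section

namespace Pool.Agent.Run7.h987.BL

variable {k : ℕ}

/-- the displacement of the spectrum of the `j`-th component -/
def shiftOf {ι : Type} (p : ι → Fin k → ℝ) (q : Option ι → Fin k → ℝ) (j : Option ι) : E k :=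
  match j with
  | none => WithLp.toLp 2 (q none)
  | some i => WithLp.toLp 2 (q (some i) - p i)

lemma shift_mem {ι : Type} (χ : ι → 𝓢(E k, ℂ)) (p : ι → Fin k → ℝ) (q : Option ι → Fin k → ℝ)
    {s1 δ : ℝ} (hs1 : 0 ≤ s1) (hχ : ∀ i, tsupport (χ i) ⊆ cub (p i) s1) (j : Option ι) :
    ∀ x ∈ Sf χ j, ∀ b ∈ Metric.closedBall (0 : E k) δ,
      x + shiftOf p q j - b ∈ cub (q j) (s1 + δ) := by
  intro x hx b hb
  rw [Metric.mem_closedBall, dist_zero_right] at hb
  have hb' : ‖WithLp.ofLp b‖ ≤ δ := (norm_ofLp_le b).trans hb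
  cases j with
  | none =>
    have hx0 : x = 0 := hx
    subst hx0
    change dist (WithLp.ofLp ((0 : E k) + WithLp.toLp 2 (q none) - b)) (q none) ≤ s1 + δ
    rw [dist_eq_norm]
    have : WithLp.ofLp ((0 : E k) + WithLp.toLp 2 (q none) - b) - q none = -WithLp.ofLp b := by
      ext i
      simp
    rw [this, norm_neg]
    linarith
  | some i =>
    have hx1 : dist (WithLp.ofLp x) (p i) ≤ s1 := hχ i hx
    change dist (WithLp.ofLp (x + WithLp.toLp 2 (q (some i) - p i) - b)) (q (some i)) ≤ s1 + δ
    rw [dist_eq_norm] at hx1 ⊢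
    have : WithLp.ofLp (x + WithLp.toLp 2 (q (some i) - p i) - b) - q (some i) =
        (WithLp.ofLp x - p i) - WithLp.ofLp b := by
      ext l
      simp
      ring
    rw [this]
    exact (norm_sub_le _ _).trans (add_le_add hx1 hb')

lemma cub_disjoint {q q' : Fin k → ℝ} {r s' : ℝ} (hr : r < s') (h : 2 * s' ≤ dist q q') :
    Disjoint (cub q r) (cub q' r) := by
  rw [Set.disjoint_left]
  intro x hx hx'
  have h1 : dist (WithLp.ofLp x) q ≤ r := hx
  have h2 : dist (WithLp.ofLp x) q' ≤ r := hx'
  have h3 := dist_triangle_left q q' (WithLp.ofLp x)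
  linarith

lemma isOpen_ocub (q : Fin k → ℝ) (r : ℝ) : IsOpen {x : E k | dist (WithLp.ofLp x) q < r} := by
  have h := PiLp.continuous_ofLp 2 (fun _ : Fin k => ℝ)
  exact isOpen_lt (h.dist continuous_const) continuous_const

/-- Transfer theorem: if a system with the marker property embeds in the band-limited shift over
a compact set `K`, then it embeds in the band-limited shift over any open set of larger measure. -/
theorem core {X : Type*} [TopologicalSpace X] [TopologicalSpace.MetrizableSpace X]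
    [AddAction (Fin k → ℤ) X] (hact : ∀ n : Fin k → ℤ, Continuous fun x : X => n +ᵥ x)
    (hmark : ∀ N : ℕ, ∃ U : Set X, IsOpen U ∧
      (∀ n : Fin k → ℤ, n ≠ 0 → (∀ i, |n i| < (N : ℤ)) → Disjoint U ((fun x => n +ᵥ x) '' U)) ∧
      ∀ x, ∃ n : Fin k → ℤ, n +ᵥ x ∈ U)
    {K O : Set (E k)} (hK : IsCompact K) (hO : IsOpen O) (hvol : volume K < volume O)
    (F : X → C(E k, ℂ)) (hFc : Continuous F) (hFi : Function.Injective F)
    (hFb : ∀ x t, ‖F x t‖ ≤ 1) (hFs : ∀ x, SpecIn (F x) K)
    (hFe : ∀ (n : Fin k → ℤ) x t, F (n +ᵥ x) t = F x (t + vec n)) :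
    ∃ G : X → C(E k, ℂ), Continuous G ∧ Function.Injective G ∧ (∀ x t, ‖G x t‖ ≤ 1) ∧
      (∀ x, SpecIn (G x) O) ∧ ∀ (n : Fin k → ℤ) x t, G (n +ᵥ x) t = G x (t + vec n) := by
  classical
  obtain ⟨ι, hι, s, s', p, q, hs, hss', hKp, hqO, hdist⟩ := packing_E hK hO hvol
  set δ : ℝ := (s' - s) / 3 with hδ
  have hδ0 : 0 < δ := by
    rw [hδ]
    linarith
  set s1 : ℝ := s + δ with hs1
  have hs12 : s1 + δ < s' := by
    rw [hs1, hδ]
    linarith
  set f : ContDiffBump (0 : E k) := ⟨δ / 2, δ, by positivity, by linarith⟩ with hf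
  have hfo : f.rOut = δ := rfl
  -- the partition of unity
  obtain ⟨χ, hχ1, O1, hO1, hKO1, hχ2⟩ := exists_part hK
    (fun i => {x : E k | dist (WithLp.ofLp x) (p i) < s1}) (fun i => isOpen_ocub (p i) s1)
    (fun i => (isCompact_cub (p i) s1).isBounded.subset
      fun x (hx : dist (WithLp.ofLp x) (p i) < s1) =>
        (show dist (WithLp.ofLp x) (p i) ≤ s1 from hx.le))
    (by
      intro x hx
      obtain ⟨i, hi⟩ := mem_iUnion.mp (hKp hx)
      refine mem_iUnion.mpr ⟨i, ?_⟩
      have h1 : dist (WithLp.ofLp x) (p i) ≤ s := hi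
      change dist (WithLp.ofLp x) (p i) < s1
      linarith)
  have hχ3 : ∀ i, tsupport (χ i) ⊆ cub (p i) s1 := fun i x hx => by
    have h1 : dist (WithLp.ofLp x) (p i) < s1 := hχ1 i hx
    exact h1.le
  -- the marker function
  obtain ⟨R, hR⟩ := exists_params f
  obtain ⟨U, hUo, hUsep, hUcov⟩ := hmark (2 * R)
  obtain ⟨h, hhc, hh0, hh1, hhU⟩ := exists_marker_fun hUo
  set a : X → (Fin k → ℤ) → ℝ := fun x m => h (m +ᵥ x) with ha
  have ha1 : ∀ x m, |a x m| ≤ 1 := fun x m => abs_le.mpr ⟨by linarith [hh0 (m +ᵥ x)], hh1 _⟩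
  have hsparse : ∀ x m m', m ≠ m' → a x m ≠ 0 → a x m' ≠ 0 →
      ¬ ∀ i, |m i - m' i| < ((2 * R : ℕ) : ℤ) := fun x m m' hne h1 h2 =>
    marker_sparse hUsep hhU x m m' hne h1 h2
  obtain ⟨C1, hC10, hC1⟩ := car_bc f
  set al : Option ι → E k := shiftOf p q with hal
  set T : Option ι → X → E k → ℂ := fun j x t => car f (al j) (a x) t * Wf χ F j x t with hT
  have hTbc : ∀ j x, BC (T j x) (C1 * CW χ j) := fun j x =>
    (hC1 (al j) (a x) (ha1 x)).mul (Wf_bc χ hFb j x)
  have hTspec : ∀ j x, SpecIn (T j x) (cub (q j) (s1 + δ)) := by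
    intro j x
    refine specIn_car f (al j) (ha1 x) (Wf_bc χ hFb j x) (Wf_spec χ hFb j x) ?_
    rw [hfo]
    exact shift_mem χ p q (by linarith) hχ3 j
  have hTcont : ∀ j, Continuous fun z : X × E k => T j z.1 z.2 := by
    intro j
    refine Continuous.mul ?_ (Wf_cont χ hFc hFb j)
    exact car_continuous f (al j) (fun m x => h (m +ᵥ x)) (fun m => hhc.comp (hact m))
      (fun m x => ha1 x m)
  have hTeq : ∀ j (n : Fin k → ℤ) x t, T j (n +ᵥ x) t = T j x (t + vec n) := by
    intro j n x t
    have h1 := car_shift f (al j) h n x t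
    have h2 := Wf_equiv χ hFe j n x t
    change car f (al j) (fun m => h (m +ᵥ (n +ᵥ x))) t * Wf χ F j (n +ᵥ x) t =
      car f (al j) (fun m => h (m +ᵥ x)) (t + vec n) * Wf χ F j x (t + vec n)
    rw [h1, h2]
  set B : ℝ := ∑ j, C1 * CW χ j with hB
  have hB0 : 0 ≤ B := Finset.sum_nonneg fun j _ => mul_nonneg hC10 (CW_nonneg χ j)
  set c : ℝ := (B + 1)⁻¹ with hc
  have hc0 : 0 < c := by positivity
  have hGc : Continuous fun z : X × E k => (c : ℂ) * ∑ j, T j z.1 z.2 :=
    continuous_const.mul (continuous_finset_sum _ fun j _ => hTcont j)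
  have hGc1 : ∀ x, Continuous fun t : E k => (c : ℂ) * ∑ j, T j x t := fun x =>
    continuous_const.mul (continuous_finset_sum _ fun j _ => (hTbc j x).cont)
  refine ⟨fun x => ⟨fun t => (c : ℂ) * ∑ j, T j x t, hGc1 x⟩, ?_, ?_, ?_, ?_, ?_⟩
  · exact ContinuousMap.continuous_of_continuous_uncurry _ hGc
  · -- injectivity
    intro x y hxy
    have hxy' : ∀ t, ∑ j, (T j x t - T j y t) = 0 := by
      intro t
      have h1 : (c : ℂ) * ∑ j, T j x t = (c : ℂ) * ∑ j, T j y t :=
        congrArg (fun g : C(E k, ℂ) => g t) hxy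
      have h2 : (c : ℂ) ≠ 0 := by exact_mod_cast hc0.ne'
      have h3 := mul_left_cancel₀ h2 h1
      rw [Finset.sum_sub_distrib, h3, sub_self]
    have hsep := eq_zero_of_sum (D := fun j => cub (q j) (s1 + δ))
      (g := fun j t => T j x t - T j y t)
      (C := fun j => C1 * CW χ j + C1 * CW χ j)
      (fun j => ⟨(hTbc j x).cont.sub (hTbc j y).cont, fun t => (norm_sub_le _ _).trans
        (add_le_add ((hTbc j x).bdd t) ((hTbc j y).bdd t))⟩)
      (fun j => (hTspec j x).sub (hTbc j x) (hTbc j y) (hTspec j y))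
      (fun j => isCompact_cub _ _)
      (fun j j' hjj => cub_disjoint hs12 (hdist j j' hjj)) hxy'
    -- the marker sequences agree
    have hax : ∀ m, a x m = a y m := by
      intro m
      have h0 : ∀ t, car f (al none) (fun m => a x m - a y m) t = 0 := by
        intro t
        rw [car_sub f (al none) (ha1 x) (ha1 y)]
        have := hsep none t
        simpa [hT, Wf] using this
      have h1 : ∀ m, |a x m - a y m| ≤ 1 := by
        intro m
        have h2 := hh0 (m +ᵥ x)
        have h3 := hh0 (m +ᵥ y)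
        have h4 := hh1 (m +ᵥ x)
        have h5 := hh1 (m +ᵥ y)
        rw [abs_le]
        constructor
        · change -1 ≤ h (m +ᵥ x) - h (m +ᵥ y)
          linarith
        · change h (m +ᵥ x) - h (m +ᵥ y) ≤ 1
          linarith
      have h2 := hR (al none) (fun m => a x m - a y m) h1
        (sep_diff (hsparse x) (hsparse y)) h0 m
      exact sub_eq_zero.mp h2
    have haxy : a x = a y := funext hax
    -- the filtered functions agree
    have hfilt : ∀ i t, filt (χ i) (fun t => F x t - F y t) t = 0 := by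
      intro i
      set e : E k → ℂ := filt (χ i) (fun t => F x t - F y t) with he
      have hdbc : BC (fun t => F x t - F y t) 2 :=
        ⟨(F x).continuous.sub (F y).continuous, fun t => (norm_sub_le _ _).trans
          (by linarith [hFb x t, hFb y t])⟩
      have hebc := filt_bc hdbc (χ i)
      have hespec : SpecIn e (tsupport (χ i)) := specIn_filt hdbc (χ i)
      have hecomp : IsCompact (tsupport (χ i)) :=
        (isCompact_cub (p i) s1).of_isClosed_subset (isClosed_tsupport _) (hχ3 i)
      have heq : ∀ t, e t = Wf χ F (some i) x t - Wf χ F (some i) y t := by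
        intro t
        change ∫ w, (F x (t + w) - F y (t + w)) * 𝓕 (χ i) w =
          (∫ w, F x (t + w) * 𝓕 (χ i) w) - ∫ w, F y (t + w) * 𝓕 (χ i) w
        have hi : ∀ z : X, Integrable fun w => F z (t + w) * 𝓕 (χ i) w := by
          intro z
          refine BC.integrable (C := 1) ⟨?_, fun w => hFb z _⟩ _
          exact (F z).continuous.comp (continuous_const.add continuous_id)
        rw [← integral_sub (hi x) (hi y)]
        congr 1
        ext w
        ring
      have hprod : ∀ t, car f (al (some i)) (a x) t * e t = 0 := by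
        intro t
        have h1 := hsep (some i) t
        have h2 : car f (al (some i)) (a x) t * Wf χ F (some i) x t -
            car f (al (some i)) (a y) t * Wf χ F (some i) y t = 0 := h1
        rw [← haxy, ← mul_sub, ← heq] at h2
        exact h2
      obtain ⟨t0, ht0⟩ : ∃ t, car f (al (some i)) (a x) t ≠ 0 := by
        by_contra hcon
        push Not at hcon
        obtain ⟨n, hn⟩ := hUcov x
        have h1 := hR (al (some i)) (a x) (ha1 x) (by
          intro m0 hm0
          refine ⟨m0, fun m hm _ hnear => ?_⟩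
          by_contra hm'
          refine hsparse x m0 m hm.symm hm0 hm' fun l => ?_
          have h3 := hnear l
          have h4 := abs_nonneg (m0 l - m l)
          push_cast
          linarith) hcon n
        exact (hhU _).mpr hn h1
      have hcc : Continuous (car f (al (some i)) (a x)) := (hC1 (al (some i)) (a x) (ha1 x)).cont
      have hev : ∀ᶠ t in 𝓝 t0, e t = 0 := by
        have h1 : ∀ᶠ t in 𝓝 t0, car f (al (some i)) (a x) t ≠ 0 :=
          hcc.continuousAt.eventually_ne ht0
        filter_upwards [h1] with t ht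
        exact (mul_eq_zero.mp (hprod t)).resolve_left ht
      exact uc hecomp hebc hespec hev
    have hdbc : BC (fun t => F x t - F y t) 2 :=
      ⟨(F x).continuous.sub (F y).continuous, fun t => (norm_sub_le _ _).trans
        (by linarith [hFb x t, hFb y t])⟩
    have hfin := eq_zero_of_filt hdbc
      ((hFs x).sub (F_bc hFb x) (F_bc hFb y) (hFs y)) χ hO1 hKO1 hχ2 hfilt
    apply hFi
    ext t
    exact sub_eq_zero.mp (hfin t)
  · -- bound
    intro x t
    change ‖(c : ℂ) * ∑ j, T j x t‖ ≤ 1
    rw [norm_mul, Complex.norm_real, Real.norm_of_nonneg hc0.le]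
    have h1 : ‖∑ j, T j x t‖ ≤ B :=
      (norm_sum_le _ _).trans (Finset.sum_le_sum fun j _ => (hTbc j x).bdd t)
    calc c * ‖∑ j, T j x t‖ ≤ c * (B + 1) :=
          mul_le_mul_of_nonneg_left (h1.trans (by linarith)) hc0.le
      _ = 1 := inv_mul_cancel₀ (by positivity)
  · -- spectrum
    intro x u hu
    change ∫ t, ((c : ℂ) * ∑ j, T j x t) * 𝓕 u t = 0
    have h1 : ∀ j, ∫ t, T j x t * 𝓕 u t = 0 := by
      intro j
      refine hTspec j x u (hu.mono_right ?_)
      refine subset_trans (fun z hz => ?_) (hqO j)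
      have h2 : dist (WithLp.ofLp z) (q j) ≤ s1 + δ := hz
      change dist (WithLp.ofLp z) (q j) ≤ s'
      linarith
    have h3 : ∀ t, ((c : ℂ) * ∑ j, T j x t) * 𝓕 u t = (c : ℂ) * ∑ j, T j x t * 𝓕 u t := by
      intro t
      rw [mul_assoc, Finset.sum_mul]
    simp only [h3]
    rw [integral_const_mul, integral_finsetSum _ fun j _ => (hTbc j x).integrable _]
    simp [h1]
  · -- equivariance
    intro n x t
    change (c : ℂ) * ∑ j, T j (n +ᵥ x) t = (c : ℂ) * ∑ j, T j x (t + vec n)
    simp only [hTeq]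

end Pool.Agent.Run7.h987.BL
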