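import Pool.Agent.Run7.h987.BL.Lat

/-!
# Decoding a separated sequence from its carrier (helper987)
-/

set_option autoImplicit false
set_option maxHeartbeats 400000
set_option linter.unusedSectionVars false

open MeasureTheory Set SchwartzMap
open scoped FourierTransform SchwartzMap ContDiff Pointwise Topology LineDeriv

noncomputable section

namespace Pool.Agent.Run7.h987.BL

variable {k : ℕ}

lemma vec_neg (n : Fin k → ℤ) : vec (-n) = -vec n := by
  ext i
  simp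

lemma summable_psi_vec (f : ContDiffBump (0 : E k)) :
    Summable fun v : Fin k → ℤ => ‖psi f (vec v)‖ := by
  obtain ⟨C, -, hC⟩ := psi_tsum (psi f)
  have h := (hC 0).1
  have h2 := (Equiv.neg (Fin k → ℤ)).summable_iff.mpr h
  refine h2.congr fun v => ?_
  simp only [Function.comp_apply, Equiv.neg_apply, vec_neg]
  simp

lemma exists_kappa (f : ContDiffBump (0 : E k)) : ∃ κ : ℝ, 0 ≤ κ ∧ κ < 1 ∧
    ∀ v : Fin k → ℤ, v ≠ 0 → ‖psi f (vec v)‖ ≤ κ := by
  have hs := summable_psi_vec f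
  have h1 : ∀ᶠ v : Fin k → ℤ in Filter.cofinite, ‖psi f (vec v)‖ < 1 / 2 :=
    hs.tendsto_cofinite_zero.eventually_lt_const (by norm_num)
  have hfin : {v : Fin k → ℤ | v ≠ 0 ∧ ¬ ‖psi f (vec v)‖ < 1 / 2}.Finite :=
    Set.Finite.subset h1 fun v hv => hv.2
  by_cases hne : hfin.toFinset.Nonempty
  · obtain ⟨v0, hv0, hmax⟩ := hfin.toFinset.exists_max_image (fun v => ‖psi f (vec v)‖) hne
    have hv0' := (hfin.mem_toFinset.mp hv0).1
    refine ⟨max (1 / 2) ‖psi f (vec v0)‖, by positivity,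
      max_lt (by norm_num) (norm_psi_lt_one f (vec_ne_zero hv0')), fun v hv => ?_⟩
    by_cases h : ‖psi f (vec v)‖ < 1 / 2
    · exact h.le.trans (le_max_left _ _)
    · exact (hmax v (hfin.mem_toFinset.mpr ⟨hv, h⟩)).trans (le_max_right _ _)
  · refine ⟨1 / 2, by norm_num, by norm_num, fun v hv => ?_⟩
    by_contra h
    exact hne ⟨v, hfin.mem_toFinset.mpr ⟨hv, fun h' => h h'.le⟩⟩

lemma exists_tail (f : ContDiffBump (0 : E k)) {ε : ℝ} (hε : 0 < ε) : ∃ R : ℕ,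
    ∀ s : Finset (Fin k → ℤ), (∀ v ∈ s, ∃ i, (R : ℤ) ≤ |v i|) →
      ∑ v ∈ s, ‖psi f (vec v)‖ ≤ ε := by
  obtain ⟨s0, hs0⟩ := summable_iff_vanishing_norm.mp (summable_psi_vec f) ε hε
  refine ⟨∑ v ∈ s0, ∑ i, (v i).natAbs + 1, fun s hs => ?_⟩
  have hd : Disjoint s s0 := by
    rw [Finset.disjoint_left]
    intro v hv hv0
    obtain ⟨i, hi⟩ := hs v hv
    have h1 : (v i).natAbs ≤ ∑ j, (v j).natAbs :=
      Finset.single_le_sum (f := fun j => (v j).natAbs) (fun _ _ => Nat.zero_le _)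
        (Finset.mem_univ i)
    have h2 : ∑ j, (v j).natAbs ≤ ∑ v ∈ s0, ∑ j, (v j).natAbs :=
      Finset.single_le_sum (f := fun v : Fin k → ℤ => ∑ j, (v j).natAbs)
        (fun _ _ => Nat.zero_le _) hv0
    have h3 : |v i| = ((v i).natAbs : ℤ) := Int.abs_eq_natAbs _
    rw [h3] at hi
    omega
  have := (hs0 s hd).le
  rwa [Real.norm_of_nonneg (Finset.sum_nonneg fun _ _ => norm_nonneg _)] at this

lemma decode_step (f : ContDiffBump (0 : E k)) {κ τ : ℝ} {R : ℕ} (hκ0 : 0 ≤ κ) (hτ0 : 0 ≤ τ)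
    (hκ : ∀ v : Fin k → ℤ, v ≠ 0 → ‖psi f (vec v)‖ ≤ κ)
    (hτ : ∀ s : Finset (Fin k → ℤ), (∀ v ∈ s, ∃ i, (R : ℤ) ≤ |v i|) →
      ∑ v ∈ s, ‖psi f (vec v)‖ ≤ τ)
    (α : E k) (c : (Fin k → ℤ) → ℝ) (hc1 : ∀ m, |c m| ≤ 1) {q : ℝ} (hq0 : 0 ≤ q)
    (hc : ∀ m, |c m| ≤ q)
    (hsep : ∀ m0, c m0 ≠ 0 → ∃ m1, ∀ m, m ≠ m0 → m ≠ m1 →
      (∀ i, |m0 i - m i| < (R : ℤ)) → c m = 0)
    (h0 : ∀ t, car f α c t = 0) (m0 : Fin k → ℤ) : |c m0| ≤ q * (κ + τ) := by
  classical
  by_cases hm0 : c m0 = 0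
  · rw [hm0, abs_zero]
    positivity
  obtain ⟨m1, hm1⟩ := hsep m0 hm0
  set d : (Fin k → ℤ) → ℂ := fun m => (c m : ℂ) * ker f α (vec m0 - vec m) with hd
  have hs : Summable d := car_summable f α hc1 (vec m0)
  have hsum : HasSum d 0 := by
    have h1 := hs.hasSum
    have h2 : ∑' m, d m = 0 := h0 (vec m0)
    rwa [h2] at h1
  have h3 := hasSum_ite_sub_hasSum hsum m0
  have hdm0 : d m0 = (c m0 : ℂ) := by
    rw [hd]
    simp only
    rw [sub_self, ker_zero, mul_one]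
  rw [hdm0] at h3
  set d' : (Fin k → ℤ) → ℂ := fun m => if m = m0 then 0 else d m with hd'
  have hbd : ∀ m, ‖d' m‖ ≤ (if m = m1 then q * κ else 0) +
      (if ∃ i, (R : ℤ) ≤ |m0 i - m i| then q * ‖psi f (vec (m0 - m))‖ else 0) := by
    intro m
    have hn1 : (0 : ℝ) ≤ (if m = m1 then q * κ else 0) := by
      split_ifs <;> positivity
    have hn2 : (0 : ℝ) ≤ (if ∃ i, (R : ℤ) ≤ |m0 i - m i| then
        q * ‖psi f (vec (m0 - m))‖ else 0) := by
      split_ifs <;> positivity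
    by_cases hm : m = m0
    · rw [hd']
      simp only [hm, if_true, norm_zero]
      rw [hm] at hn1 hn2
      exact add_nonneg hn1 hn2
    · have h4 : d' m = d m := by
        rw [hd']
        simp [hm]
      have h5 : ‖d m‖ = |c m| * ‖psi f (vec (m0 - m))‖ := by
        rw [hd]
        simp only
        rw [norm_mul, norm_ker, Complex.norm_real, vec_sub, Real.norm_eq_abs]
      have h6 : ‖d m‖ ≤ q * ‖psi f (vec (m0 - m))‖ := by
        rw [h5]
        exact mul_le_mul_of_nonneg_right (hc m) (norm_nonneg _)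
      rw [h4]
      by_cases hmm : m = m1
      · have h7 : ‖psi f (vec (m0 - m))‖ ≤ κ := by
          apply hκ
          intro h
          exact hm (sub_eq_zero.mp h).symm
        rw [if_pos hmm]
        have h8 : q * ‖psi f (vec (m0 - m))‖ ≤ q * κ := mul_le_mul_of_nonneg_left h7 hq0
        linarith
      · by_cases hfar : ∃ i, (R : ℤ) ≤ |m0 i - m i|
        · rw [if_neg hmm, if_pos hfar, zero_add]
          exact h6
        · have h9 : c m = 0 := by
            apply hm1 m hm hmm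
            intro i
            push Not at hfar
            exact hfar i
          rw [h5, h9, abs_zero, zero_mul]
          exact add_nonneg hn1 hn2
  have hpart : ∀ s : Finset (Fin k → ℤ), ∑ m ∈ s, ‖d' m‖ ≤ q * (κ + τ) := by
    intro s
    refine (Finset.sum_le_sum fun m _ => hbd m).trans ?_
    rw [Finset.sum_add_distrib, mul_add]
    refine add_le_add ?_ ?_
    · rw [Finset.sum_ite_eq']
      split_ifs
      · exact le_rfl
      · positivity
    · rw [← Finset.sum_filter, ← Finset.mul_sum]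
      refine mul_le_mul_of_nonneg_left ?_ hq0
      have h10 := hτ ((s.filter fun m => ∃ i, (R : ℤ) ≤ |m0 i - m i|).image fun m => m0 - m)
        (by
          intro v hv
          rw [Finset.mem_image] at hv
          obtain ⟨m, hm, rfl⟩ := hv
          exact (Finset.mem_filter.mp hm).2)
      rw [Finset.sum_image (fun a _ b _ h => sub_right_injective h)] at h10
      exact h10
  have hsn : Summable fun m => ‖d' m‖ := by
    refine summable_of_sum_le (fun _ => norm_nonneg _) hpart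
  have h11 : ‖(0 : ℂ) - (c m0 : ℂ)‖ ≤ ∑' m, ‖d' m‖ := by
    rw [← h3.tsum_eq]
    exact norm_tsum_le_tsum_norm hsn
  have h12 : ∑' m, ‖d' m‖ ≤ q * (κ + τ) := Summable.tsum_le_of_sum_le hsn hpart
  rw [zero_sub, norm_neg, Complex.norm_real, Real.norm_eq_abs] at h11
  exact h11.trans h12

/-- a sparse sequence is determined by its carrier -/
theorem decode (f : ContDiffBump (0 : E k)) {κ τ : ℝ} {R : ℕ} (hκ0 : 0 ≤ κ) (hτ0 : 0 ≤ τ)
    (hκ : ∀ v : Fin k → ℤ, v ≠ 0 → ‖psi f (vec v)‖ ≤ κ)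
    (hτ : ∀ s : Finset (Fin k → ℤ), (∀ v ∈ s, ∃ i, (R : ℤ) ≤ |v i|) →
      ∑ v ∈ s, ‖psi f (vec v)‖ ≤ τ) (hlt : κ + τ < 1)
    (α : E k) (c : (Fin k → ℤ) → ℝ) (hc1 : ∀ m, |c m| ≤ 1)
    (hsep : ∀ m0, c m0 ≠ 0 → ∃ m1, ∀ m, m ≠ m0 → m ≠ m1 →
      (∀ i, |m0 i - m i| < (R : ℤ)) → c m = 0)
    (h0 : ∀ t, car f α c t = 0) (m0 : Fin k → ℤ) : c m0 = 0 := by
  have h : ∀ n : ℕ, ∀ m, |c m| ≤ (κ + τ) ^ n := by
    intro n
    induction n with
    | zero => simpa using hc1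
    | succ n ih =>
      intro m
      rw [pow_succ]
      exact decode_step f hκ0 hτ0 hκ hτ α c hc1 (by positivity) ih hsep h0 m
  have hlim : Filter.Tendsto (fun n : ℕ => (κ + τ) ^ n) Filter.atTop (𝓝 0) :=
    tendsto_pow_atTop_nhds_zero_of_lt_one (by positivity) hlt
  have h1 : |c m0| ≤ 0 := ge_of_tendsto' hlim fun n => h n m0
  exact abs_nonpos_iff.mp h1

/-- choice of the separation parameter -/
lemma exists_params (f : ContDiffBump (0 : E k)) : ∃ R : ℕ, ∀ (α : E k)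
    (c : (Fin k → ℤ) → ℝ), (∀ m, |c m| ≤ 1) →
    (∀ m0, c m0 ≠ 0 → ∃ m1, ∀ m, m ≠ m0 → m ≠ m1 →
      (∀ i, |m0 i - m i| < (R : ℤ)) → c m = 0) →
    (∀ t, car f α c t = 0) → ∀ m, c m = 0 := by
  obtain ⟨κ, hκ0, hκ1, hκ⟩ := exists_kappa f
  obtain ⟨R, hR⟩ := exists_tail f (ε := (1 - κ) / 2) (by linarith)
  exact ⟨R, fun α c hc hsep h0 m => decode f hκ0 (by linarith) hκ hR (by linarith) α c hc hsep
    h0 m⟩

end Pool.Agent.Run7.h987.BL
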