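import Mathlib

/-!
# A packing lemma: moving a compact set by translations of small pieces (helper987)
-/

set_option autoImplicit false
set_option maxHeartbeats 400000

open MeasureTheory Set
open scoped Topology ENNReal

noncomputable section

namespace Pool.Agent.Run7.h987.BL

variable {k : ℕ}

/-- index of the cell containing a point -/
def fl (s : ℝ) (x : Fin k → ℝ) : Fin k → ℤ := fun i => ⌊x i / (2 * s)⌋

/-- centre of a cell -/
def ctr (s : ℝ) (z : Fin k → ℤ) : Fin k → ℝ := fun i => 2 * s * z i + s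

/-- cells -/
def cell (s : ℝ) (z : Fin k → ℤ) : Set (Fin k → ℝ) :=
  Set.pi univ fun i => Ico (2 * s * z i) (2 * s * z i + 2 * s)

lemma mem_cell_fl {s : ℝ} (hs : 0 < s) (x : Fin k → ℝ) : x ∈ cell s (fl s x) := by
  intro i _
  have h1 := Int.floor_le (x i / (2 * s))
  have h2 := Int.lt_floor_add_one (x i / (2 * s))
  have h2s : 0 < 2 * s := by linarith
  rw [le_div_iff₀ h2s] at h1
  rw [div_lt_iff₀ h2s] at h2
  constructor
  · simp only [fl]
    linarith
  · simp only [fl]
    linarith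

lemma fl_eq_of_mem_cell {s : ℝ} (hs : 0 < s) {x : Fin k → ℝ} {z : Fin k → ℤ}
    (h : x ∈ cell s z) : fl s x = z := by
  ext i
  have h2s : 0 < 2 * s := by linarith
  have := h i (mem_univ i)
  simp only [fl]
  rw [Int.floor_eq_iff, le_div_iff₀ h2s, div_lt_iff₀ h2s]
  constructor
  · linarith [this.1]
  · linarith [this.2]

lemma cell_subset {s : ℝ} (hs : 0 < s) (z : Fin k → ℤ) :
    cell s z ⊆ Metric.closedBall (ctr s z) s := by
  intro x hx
  rw [Metric.mem_closedBall, dist_pi_le_iff hs.le]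
  intro i
  have := hx i (mem_univ i)
  rw [Real.dist_eq, abs_le]
  simp only [ctr]
  constructor <;> linarith [this.1, this.2]

lemma measurable_cell (s : ℝ) (z : Fin k → ℤ) : MeasurableSet (cell s z) :=
  MeasurableSet.univ_pi fun _ => measurableSet_Ico

lemma volume_cell (s : ℝ) (z : Fin k → ℤ) : volume (cell s z) = ENNReal.ofReal (2 * s) ^ k := by
  unfold cell
  rw [Real.volume_pi_Ico]
  simp

lemma dist_ctr {s : ℝ} (hs : 0 < s) {z z' : Fin k → ℤ} (h : z ≠ z') :
    2 * s ≤ dist (ctr s z) (ctr s z') := by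
  obtain ⟨i, hi⟩ := Function.ne_iff.mp h
  refine le_trans ?_ (dist_le_pi_dist _ _ i)
  rw [Real.dist_eq]
  simp only [ctr]
  have h1 : 2 * s * (z i : ℝ) + s - (2 * s * (z' i : ℝ) + s) = 2 * s * ((z i - z' i : ℤ) : ℝ) := by
    push_cast
    ring
  rw [h1, abs_mul, abs_of_pos (by linarith : (0 : ℝ) < 2 * s)]
  have h2 : (1 : ℝ) ≤ |((z i - z' i : ℤ) : ℝ)| := by
    rw [← Int.cast_abs]
    exact_mod_cast Int.one_le_abs (sub_ne_zero.mpr hi)
  nlinarith

lemma fl_image_finite {s : ℝ} (hs : 0 < s) {K : Set (Fin k → ℝ)} (hK : IsCompact K) :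
    (fl s '' K).Finite := by
  obtain ⟨r, hr⟩ := hK.isBounded.subset_closedBall 0
  refine Set.Finite.subset (Set.finite_Icc (fun _ : Fin k => ⌊-r / (2 * s)⌋)
    (fun _ => ⌊r / (2 * s)⌋)) ?_
  rintro z ⟨x, hx, rfl⟩
  have h1 := hr hx
  rw [Metric.mem_closedBall, dist_zero_right] at h1
  have h2s : 0 < 2 * s := by linarith
  constructor
  · intro i
    have h2 := (norm_le_pi_norm x i).trans h1
    rw [Real.norm_eq_abs, abs_le] at h2
    exact Int.floor_le_floor (div_le_div_of_nonneg_right h2.1 h2s.le)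
  · intro i
    have h2 := (norm_le_pi_norm x i).trans h1
    rw [Real.norm_eq_abs, abs_le] at h2
    exact Int.floor_le_floor (div_le_div_of_nonneg_right h2.2 h2s.le)

lemma grid {s : ℝ} (hs : 0 < s) {K U : Set (Fin k → ℝ)} (hK : IsCompact K)
    (hKU : Metric.cthickening (2 * s) K ⊆ U) : ∃ I : Finset (Fin k → ℤ),
      (K ⊆ ⋃ z ∈ I, Metric.closedBall (ctr s z) s) ∧
      (∀ z ∈ I, Metric.closedBall (ctr s z) s ⊆ U) ∧
      volume K ≤ I.card * ENNReal.ofReal (2 * s) ^ k ∧
      I.card * ENNReal.ofReal (2 * s) ^ k ≤ volume U := by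
  set I := (fl_image_finite hs hK).toFinset with hI
  have hmem : ∀ z, z ∈ I ↔ ∃ x ∈ K, fl s x = z := by
    intro z
    rw [hI, Set.Finite.mem_toFinset]
    rfl
  have hcover : K ⊆ ⋃ z ∈ I, cell s z := by
    intro x hx
    rw [mem_iUnion₂]
    exact ⟨fl s x, (hmem _).mpr ⟨x, hx, rfl⟩, mem_cell_fl hs x⟩
  have hsub : ∀ z ∈ I, Metric.closedBall (ctr s z) s ⊆ U := by
    intro z hz y hy
    obtain ⟨x, hx, hxz⟩ := (hmem z).mp hz
    apply hKU
    refine Metric.mem_cthickening_of_dist_le y x (2 * s) K hx ?_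
    have h1 : x ∈ Metric.closedBall (ctr s z) s := by
      rw [← hxz]
      exact cell_subset hs _ (mem_cell_fl hs x)
    rw [Metric.mem_closedBall] at h1 hy
    calc dist y x ≤ dist y (ctr s z) + dist x (ctr s z) := dist_triangle_right _ _ _
      _ ≤ 2 * s := by linarith
  refine ⟨I, ?_, hsub, ?_, ?_⟩
  · refine hcover.trans ?_
    exact iUnion₂_mono fun z _ => cell_subset hs z
  · calc volume K ≤ volume (⋃ z ∈ I, cell s z) := measure_mono hcover
      _ ≤ ∑ z ∈ I, volume (cell s z) := measure_biUnion_finset_le _ _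
      _ = I.card * ENNReal.ofReal (2 * s) ^ k := by
          simp [volume_cell]
  · have hd : (I : Set (Fin k → ℤ)).PairwiseDisjoint (cell s) := by
      intro z _ z' _ hne
      rw [Function.onFun, Set.disjoint_left]
      intro x hx hx'
      exact hne ((fl_eq_of_mem_cell hs hx).symm.trans (fl_eq_of_mem_cell hs hx'))
    calc I.card * ENNReal.ofReal (2 * s) ^ k = ∑ z ∈ I, volume (cell s z) := by
          simp [volume_cell]
      _ = volume (⋃ z ∈ I, cell s z) :=
          (measure_biUnion_finset hd fun z _ => measurable_cell s z).symm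
      _ ≤ volume U := measure_mono (iUnion₂_subset fun z hz =>
          (cell_subset hs z).trans (hsub z hz))

/-- the packing lemma -/
theorem packing {K O : Set (Fin k → ℝ)} (hK : IsCompact K) (hO : IsOpen O)
    (hvol : volume K < volume O) :
    ∃ (ι : Type) (_ : Fintype ι) (s s' : ℝ) (p : ι → Fin k → ℝ) (q : Option ι → Fin k → ℝ),
      0 < s ∧ s < s' ∧ (K ⊆ ⋃ i, Metric.closedBall (p i) s) ∧
      (∀ j, Metric.closedBall (q j) s' ⊆ O) ∧
      ∀ j j', j ≠ j' → 2 * s' ≤ dist (q j) (q j') := by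
  obtain ⟨U, hKU, hU, hUO⟩ := K.exists_isOpen_lt_of_lt _ hvol
  obtain ⟨L, hLO, hL, hUL⟩ := hO.exists_lt_isCompact hUO
  have hLfin : volume L ≠ ⊤ := hL.measure_lt_top.ne
  have hUfin : volume U ≠ ⊤ := (hUL.trans_le le_top).ne
  set u := (volume U).toReal with hu
  set l := (volume L).toReal with hl
  have hul : u < l := (ENNReal.toReal_lt_toReal hUfin hLfin).mpr hUL
  obtain ⟨lam, hlam1, hlam⟩ : ∃ lam : ℝ, 1 < lam ∧ lam ^ k * u < l := by
    have h1 : Filter.Tendsto (fun x : ℝ => x ^ k * u) (𝓝[>] 1) (𝓝 (1 ^ k * u)) := by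
      have : Continuous fun x : ℝ => x ^ k * u := by fun_prop
      exact (this.tendsto 1).mono_left nhdsWithin_le_nhds
    rw [one_pow, one_mul] at h1
    have h2 := (h1.eventually_lt_const hul).and self_mem_nhdsWithin
    obtain ⟨x, hx1, hx2⟩ := h2.exists
    exact ⟨x, hx2, hx1⟩
  obtain ⟨δ1, hδ1, hs1⟩ := hK.exists_cthickening_subset_open hU hKU
  obtain ⟨δ2, hδ2, hs2⟩ := hL.exists_cthickening_subset_open hO hLO
  set s : ℝ := min (δ1 / 2) (δ2 / (2 * lam)) with hs
  have hlam0 : 0 < lam := by linarith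
  have hspos : 0 < s := lt_min (by positivity) (by positivity)
  have hs'pos : 0 < lam * s := by positivity
  have hsδ1 : 2 * s ≤ δ1 := by
    have := min_le_left (δ1 / 2) (δ2 / (2 * lam))
    rw [← hs] at this
    linarith
  have hsδ2 : 2 * (lam * s) ≤ δ2 := by
    have := min_le_right (δ1 / 2) (δ2 / (2 * lam))
    rw [← hs, le_div_iff₀ (by positivity)] at this
    linarith
  obtain ⟨I, hI1, hI2, hI3, hI4⟩ := grid hspos hK
    ((Metric.cthickening_mono hsδ1 K).trans hs1)
  obtain ⟨J, hJ1, hJ2, hJ3, hJ4⟩ := grid hs'pos hL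
    ((Metric.cthickening_mono hsδ2 L).trans hs2)
  have hIr : (I.card : ℝ) * (2 * s) ^ k ≤ u := by
    have := ENNReal.toReal_mono hUfin hI4
    rwa [ENNReal.toReal_mul, ENNReal.toReal_pow, ENNReal.toReal_natCast,
      ENNReal.toReal_ofReal (by positivity)] at this
  have hJr : l ≤ (J.card : ℝ) * (2 * (lam * s)) ^ k := by
    have h1 : ((J.card : ℝ≥0∞) * ENNReal.ofReal (2 * (lam * s)) ^ k) ≠ ⊤ :=
      ENNReal.mul_ne_top (ENNReal.natCast_ne_top _) (ENNReal.pow_ne_top ENNReal.ofReal_ne_top)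
    have := ENNReal.toReal_mono h1 hJ3
    rwa [ENNReal.toReal_mul, ENNReal.toReal_pow, ENNReal.toReal_natCast,
      ENNReal.toReal_ofReal (by positivity)] at this
  have hcard : I.card < J.card := by
    have h1 : (I.card : ℝ) * (2 * (lam * s)) ^ k < J.card * (2 * (lam * s)) ^ k := by
      calc (I.card : ℝ) * (2 * (lam * s)) ^ k = lam ^ k * (I.card * (2 * s) ^ k) := by
            rw [mul_left_comm 2 lam s, mul_pow lam]
            ring
        _ ≤ lam ^ k * u := mul_le_mul_of_nonneg_left hIr (by positivity)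
        _ < l := hlam
        _ ≤ _ := hJr
    have h2 := lt_of_mul_lt_mul_right h1 (by positivity)
    exact_mod_cast h2
  have hcard2 : Fintype.card (Option {z // z ∈ I}) ≤ Fintype.card {z // z ∈ J} := by
    simp only [Fintype.card_option, Fintype.card_coe]
    exact hcard
  obtain ⟨g⟩ := Function.Embedding.nonempty_of_card_le hcard2
  refine ⟨{z // z ∈ I}, inferInstance, s, lam * s, fun z => ctr s z.1,
    fun j => ctr (lam * s) (g j).1, hspos, ?_, ?_, ?_, ?_⟩
  · nlinarith
  · intro x hx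
    have := hI1 hx
    rw [mem_iUnion₂] at this
    obtain ⟨z, hz, hxz⟩ := this
    exact mem_iUnion.mpr ⟨⟨z, hz⟩, hxz⟩
  · exact fun j => hJ2 _ (g j).2
  · intro j j' hjj
    apply dist_ctr hs'pos
    intro h
    exact hjj (g.injective (Subtype.ext h))

end Pool.Agent.Run7.h987.BL
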