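import Pool.Agent.Run7.h987.BL.Win

/-!
# Lattice sums of the window kernels (helper987)
-/

set_option autoImplicit false
set_option maxHeartbeats 400000
set_option linter.unusedSectionVars false

open MeasureTheory Set SchwartzMap
open scoped FourierTransform SchwartzMap ContDiff Pointwise Topology LineDeriv

noncomputable section

namespace Pool.Agent.Run7.h987.BL

/-- Euclidean space -/
abbrev E (k : ℕ) := EuclideanSpace ℝ (Fin k)

/-- integer vectors as points of Euclidean space -/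
def vec {k : ℕ} (n : Fin k → ℤ) : E k := WithLp.toLp 2 fun i => (n i : ℝ)

@[simp] lemma vec_apply {k : ℕ} (n : Fin k → ℤ) (i : Fin k) : vec n i = n i := rfl

lemma vec_add {k : ℕ} (n m : Fin k → ℤ) : vec (n + m) = vec n + vec m := by
  ext i
  simp

lemma vec_sub {k : ℕ} (n m : Fin k → ℤ) : vec (n - m) = vec n - vec m := by
  ext i
  simp

lemma vec_ne_zero {k : ℕ} {n : Fin k → ℤ} (h : n ≠ 0) : vec n ≠ 0 := by
  intro h0
  apply h
  ext i
  have := congrArg (fun v : E k => v i) h0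
  simpa using this

/-- weights -/
def wt (j : ℤ) : ℝ := ((1 + |(j : ℝ)|) ^ 2)⁻¹

lemma wt_nonneg (j : ℤ) : 0 ≤ wt j := by
  unfold wt
  positivity

lemma summable_wt : Summable wt := by
  have h : Summable fun n : ℕ => ((1 + (n : ℝ)) ^ 2)⁻¹ := by
    have := (summable_nat_add_iff 1).mpr (Real.summable_nat_pow_inv.mpr one_lt_two)
    refine this.congr fun n => ?_
    push_cast
    rw [add_comm]
  refine Summable.of_nat_of_neg (h.congr fun n => ?_) (h.congr fun n => ?_)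
  · simp [wt]
  · simp [wt]

lemma sum_pi_wt {k : ℕ} (t : Fin k → Finset ℤ) :
    ∑ m ∈ Fintype.piFinset t, ∏ i, wt (m i) = ∏ i, ∑ j ∈ t i, wt j :=
  (Finset.prod_univ_sum t (fun _ j => wt j)).symm

lemma prod_sum_wt_le {k : ℕ} (t : Fin k → Finset ℤ) :
    ∏ i, ∑ j ∈ t i, wt j ≤ (∑' j, wt j) ^ k := by
  calc ∏ i, ∑ j ∈ t i, wt j ≤ ∏ _i : Fin k, ∑' j, wt j := by
        refine Finset.prod_le_prod (fun i _ => Finset.sum_nonneg fun j _ => wt_nonneg j)
          fun i _ => ?_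
        exact summable_wt.sum_le_tsum _ fun j _ => wt_nonneg j
    _ = (∑' j, wt j) ^ k := by rw [Finset.prod_const, Finset.card_univ, Fintype.card_fin]

lemma subset_pi_image {k : ℕ} (s : Finset (Fin k → ℤ)) :
    s ⊆ Fintype.piFinset (fun i => s.image (fun m => m i)) := by
  intro m hm
  rw [Fintype.mem_piFinset]
  exact fun i => Finset.mem_image_of_mem (fun m => m i) hm

lemma sum_prod_wt_le {k : ℕ} (s : Finset (Fin k → ℤ)) :
    ∑ m ∈ s, ∏ i, wt (m i) ≤ (∑' j, wt j) ^ k := by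
  refine le_trans (Finset.sum_le_sum_of_subset_of_nonneg (subset_pi_image s) fun _ _ _ =>
          Finset.prod_nonneg fun _ _ => wt_nonneg _) ?_
  rw [sum_pi_wt]
  exact prod_sum_wt_le _

lemma summable_wts (k : ℕ) : Summable fun m : Fin k → ℤ => ∏ i, wt (m i) :=
  summable_of_sum_le (fun m => Finset.prod_nonneg fun i _ => wt_nonneg _) sum_prod_wt_le

lemma summable_wts_sub {k : ℕ} (n : Fin k → ℤ) :
    Summable fun m : Fin k → ℤ => ∏ i, wt (n i - m i) := by
  have := (Equiv.subLeft n).summable_iff.mpr (summable_wts k)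
  exact this

lemma tsum_wts_sub {k : ℕ} (n : Fin k → ℤ) :
    ∑' m : Fin k → ℤ, ∏ i, wt (n i - m i) = ∑' m : Fin k → ℤ, ∏ i, wt (m i) :=
  (Equiv.subLeft n).tsum_eq (fun m : Fin k → ℤ => ∏ i, wt (m i))

lemma psi_le {k : ℕ} (ψ : 𝓢(E k, ℂ)) : ∃ C0 : ℝ, 0 ≤ C0 ∧ ∀ R : ℝ, 0 ≤ R →
    ∀ (t : E k) (n m : Fin k → ℤ), (∀ i, |t i - n i| ≤ R) →
      ‖ψ (t - vec m)‖ ≤ C0 * ((1 + R) ^ 2) ^ k * ∏ i, wt (n i - m i) := by
  set C0 : ℝ := 2 ^ (2 * k) *
    (Finset.Iic ((2 * k, 0) : ℕ × ℕ)).sup (fun m => SchwartzMap.seminorm ℝ m.1 m.2) ψ with hC0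
  have hdec : ∀ x : E k, (1 + ‖x‖) ^ (2 * k) * ‖ψ x‖ ≤ C0 := by
    intro x
    have := SchwartzMap.one_add_le_sup_seminorm_apply (𝕜 := ℝ) (m := (2 * k, 0)) (k := 2 * k)
      (n := 0) le_rfl le_rfl ψ x
    rwa [norm_iteratedFDeriv_zero] at this
  refine ⟨C0, ?_, ?_⟩
  · exact (by positivity : (0 : ℝ) ≤ (1 + ‖(0 : E k)‖) ^ (2 * k) * ‖ψ 0‖).trans (hdec 0)
  · intro R hR t n m ht
    set x : E k := t - vec m with hx
    have h1 : ∏ i, (1 + |((n i - m i : ℤ) : ℝ)|) ^ 2 ≤ (1 + ‖x‖) ^ (2 * k) * ((1 + R) ^ 2) ^ k := by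
      have h2 : ∀ i : Fin k, (1 + |((n i - m i : ℤ) : ℝ)|) ^ 2 ≤ (1 + ‖x‖) ^ 2 * (1 + R) ^ 2 := by
        intro i
        rw [← mul_pow]
        refine pow_le_pow_left₀ (by positivity) ?_ 2
        have h3 : |x i| ≤ ‖x‖ := PiLp.norm_apply_le x i
        have h4 : x i = t i - m i := by simp [hx]
        have h5 : |((n i - m i : ℤ) : ℝ)| ≤ |x i| + R := by
          push_cast
          have h6 := ht i
          rw [h4]
          have h7 : (n i : ℝ) - m i = (t i - m i) - (t i - n i) := by ring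
          rw [h7]
          exact (abs_sub _ _).trans (by linarith)
        nlinarith [norm_nonneg x, abs_nonneg (x i), mul_nonneg (norm_nonneg x) hR]
      calc ∏ i, (1 + |((n i - m i : ℤ) : ℝ)|) ^ 2
          ≤ ∏ _i : Fin k, ((1 + ‖x‖) ^ 2 * (1 + R) ^ 2) :=
            Finset.prod_le_prod (fun i _ => by positivity) fun i _ => h2 i
        _ = (1 + ‖x‖) ^ (2 * k) * ((1 + R) ^ 2) ^ k := by
            simp [mul_pow, pow_mul]
    have hP : 0 < ∏ i, (1 + |((n i - m i : ℤ) : ℝ)|) ^ 2 :=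
      Finset.prod_pos fun i _ => by positivity
    have h8 : ∏ i, wt (n i - m i) = (∏ i, (1 + |((n i - m i : ℤ) : ℝ)|) ^ 2)⁻¹ := by
      unfold wt
      rw [Finset.prod_inv_distrib]
    rw [h8, ← div_eq_mul_inv, le_div_iff₀ hP]
    calc ‖ψ x‖ * ∏ i, (1 + |((n i - m i : ℤ) : ℝ)|) ^ 2
        ≤ ‖ψ x‖ * ((1 + ‖x‖) ^ (2 * k) * ((1 + R) ^ 2) ^ k) :=
          mul_le_mul_of_nonneg_left h1 (norm_nonneg _)
      _ = ((1 + ‖x‖) ^ (2 * k) * ‖ψ x‖) * ((1 + R) ^ 2) ^ k := by ring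
      _ ≤ C0 * ((1 + R) ^ 2) ^ k :=
          mul_le_mul_of_nonneg_right (hdec x) (by positivity)

lemma psi_tsum {k : ℕ} (ψ : 𝓢(E k, ℂ)) : ∃ C : ℝ, 0 ≤ C ∧ ∀ t : E k,
    Summable (fun m : Fin k → ℤ => ‖ψ (t - vec m)‖) ∧ ∑' m : Fin k → ℤ, ‖ψ (t - vec m)‖ ≤ C := by
  obtain ⟨C0, hC0, h⟩ := psi_le ψ
  refine ⟨C0 * ((1 + 1 / 2) ^ 2) ^ k * ∑' m : Fin k → ℤ, ∏ i, wt (m i), ?_, fun t => ?_⟩
  · have : 0 ≤ ∑' m : Fin k → ℤ, ∏ i, wt (m i) :=
      tsum_nonneg fun m => Finset.prod_nonneg fun i _ => wt_nonneg _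
    positivity
  · set n : Fin k → ℤ := fun i => round (t i) with hn
    have hb : ∀ m : Fin k → ℤ, ‖ψ (t - vec m)‖ ≤
        C0 * ((1 + 1 / 2) ^ 2) ^ k * ∏ i, wt (n i - m i) :=
      fun m => h (1 / 2) (by norm_num) t n m fun i => abs_sub_round (t i)
    have hs : Summable fun m : Fin k → ℤ =>
        C0 * ((1 + 1 / 2) ^ 2) ^ k * ∏ i, wt (n i - m i) := (summable_wts_sub n).mul_left _
    have hs2 : Summable (fun m : Fin k → ℤ => ‖ψ (t - vec m)‖) :=
      Summable.of_nonneg_of_le (fun m => norm_nonneg _) hb hs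
    refine ⟨hs2, (hs2.tsum_le_tsum hb hs).trans ?_⟩
    rw [tsum_mul_left, tsum_wts_sub]

/-- carriers -/
def car {k : ℕ} (f : ContDiffBump (0 : E k)) (α : E k) (a : (Fin k → ℤ) → ℝ) (t : E k) : ℂ :=
  ∑' m : Fin k → ℤ, (a m : ℂ) * ker f α (t - vec m)

lemma norm_term_le {k : ℕ} (f : ContDiffBump (0 : E k)) (α : E k) {a : (Fin k → ℤ) → ℝ}
    (ha : ∀ m, |a m| ≤ 1) (t : E k) (m : Fin k → ℤ) :
    ‖(a m : ℂ) * ker f α (t - vec m)‖ ≤ ‖psi f (t - vec m)‖ := by
  rw [norm_mul, norm_ker, Complex.norm_real]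
  exact mul_le_of_le_one_left (norm_nonneg _) (ha m)

lemma car_summable {k : ℕ} (f : ContDiffBump (0 : E k)) (α : E k) {a : (Fin k → ℤ) → ℝ}
    (ha : ∀ m, |a m| ≤ 1) (t : E k) :
    Summable fun m : Fin k → ℤ => (a m : ℂ) * ker f α (t - vec m) := by
  obtain ⟨C, -, hC⟩ := psi_tsum (psi f)
  exact Summable.of_norm_bounded (hC t).1 (norm_term_le f α ha t)

lemma car_bound {k : ℕ} (f : ContDiffBump (0 : E k)) : ∃ C : ℝ, 0 ≤ C ∧
    ∀ (α : E k) (a : (Fin k → ℤ) → ℝ), (∀ m, |a m| ≤ 1) → ∀ t, ‖car f α a t‖ ≤ C := by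
  obtain ⟨C, hC0, hC⟩ := psi_tsum (psi f)
  refine ⟨C, hC0, fun α a ha t => ?_⟩
  refine le_trans ?_ (hC t).2
  exact tsum_of_norm_bounded (hC t).1.hasSum (norm_term_le f α ha t)

lemma car_continuous {k : ℕ} (f : ContDiffBump (0 : E k)) (α : E k) {X : Type*}
    [TopologicalSpace X] (a : (Fin k → ℤ) → X → ℝ) (hac : ∀ m, Continuous (a m))
    (ha : ∀ m x, |a m x| ≤ 1) :
    Continuous fun p : X × E k => car f α (fun m => a m p.1) p.2 := by
  obtain ⟨C0, hC0, h⟩ := psi_le (psi f)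
  rw [continuous_iff_continuousAt]
  rintro ⟨x0, t0⟩
  set R : ℝ := ‖t0‖ + 1 with hR
  have hR0 : 0 ≤ R := by positivity
  set s : Set (X × E k) := {p | ‖p.2‖ < R} with hs
  have hso : IsOpen s := isOpen_lt (by fun_prop) continuous_const
  have hmem : (x0, t0) ∈ s := by
    simp [hs, hR]
  have hco : ContinuousOn (fun p : X × E k => ∑' m : Fin k → ℤ,
      ((a m p.1 : ℝ) : ℂ) * ker f α (p.2 - vec m)) s := by
    refine continuousOn_tsum (u := fun m : Fin k → ℤ =>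
      C0 * ((1 + R) ^ 2) ^ k * ∏ i, wt ((0 : Fin k → ℤ) i - m i)) ?_ ?_ ?_
    · intro m
      apply Continuous.continuousOn
      have h1 := hac m
      have h2 := continuous_ker f α
      fun_prop
    · exact (summable_wts_sub (0 : Fin k → ℤ)).mul_left _
    · intro m p hp
      refine (norm_term_le f α (a := fun m => a m p.1) (fun m => ha m p.1) p.2 m).trans ?_
      refine h R hR0 p.2 0 m fun i => ?_
      have h3 : |p.2 i| ≤ ‖p.2‖ := PiLp.norm_apply_le p.2 i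
      have h4 : ‖p.2‖ < R := hp
      simpa using h3.trans h4.le
  exact hco.continuousAt (hso.mem_nhds hmem)

lemma car_cont {k : ℕ} (f : ContDiffBump (0 : E k)) (α : E k) (a : (Fin k → ℤ) → ℝ)
    (ha : ∀ m, |a m| ≤ 1) : Continuous (car f α a) := by
  have h1 : Continuous fun p : Unit × E k => car f α a p.2 :=
    car_continuous f α (X := Unit) (fun m _ => a m) (fun m => continuous_const)
      (fun m _ => ha m)
  have h2 : Continuous fun t : E k => ((), t) := by fun_prop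
  have h3 := h1.comp h2
  simp only [Function.comp_def] at h3
  exact h3

lemma car_bc {k : ℕ} (f : ContDiffBump (0 : E k)) : ∃ C : ℝ, 0 ≤ C ∧
    ∀ (α : E k) (a : (Fin k → ℤ) → ℝ), (∀ m, |a m| ≤ 1) → BC (car f α a) C := by
  obtain ⟨C, hC0, hC⟩ := car_bound f
  refine ⟨C, hC0, fun α a ha => ?_⟩
  exact ⟨car_cont f α a ha, hC α a ha⟩

lemma BC.mul {k : ℕ} {f g : E k → ℂ} {C D : ℝ} (hf : BC f C) (hg : BC g D) :
    BC (fun t => f t * g t) (C * D) :=
  ⟨hf.cont.mul hg.cont, fun t => by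
    rw [norm_mul]
    exact mul_le_mul (hf.bdd t) (hg.bdd t) (norm_nonneg _) hf.nonneg⟩

/-- spectrum of a carrier times a function -/
lemma specIn_car {k : ℕ} (f : ContDiffBump (0 : E k)) (α : E k) {a : (Fin k → ℤ) → ℝ}
    (ha : ∀ m, |a m| ≤ 1) {w : E k → ℂ} {C : ℝ} (hw : BC w C) {S D : Set (E k)}
    (hS : SpecIn w S)
    (hD : ∀ x ∈ S, ∀ b ∈ Metric.closedBall (0 : E k) f.rOut, x + α - b ∈ D) :
    SpecIn (fun t => car f α a t * w t) D := by
  intro u hu
  obtain ⟨C1, hC10, hC1⟩ := psi_tsum (psi f)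
  set F : (Fin k → ℤ) → E k → ℂ := fun m t => (a m : ℂ) * ker f α (t - vec m) * w t * 𝓕 u t with hF
  have hkb : ∀ m, BC (fun t => (a m : ℂ) * ker f α (t - vec m)) C1 := by
    intro m
    refine ⟨?_, fun t => ?_⟩
    · have := continuous_ker f α
      fun_prop
    · refine (norm_term_le f α ha t m).trans ?_
      refine le_trans ?_ (hC1 t).2
      exact (hC1 t).1.le_tsum m fun _ _ => norm_nonneg _
  have hFint : ∀ m, Integrable (F m) := fun m => ((hkb m).mul hw).integrable _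
  have hzero : ∀ m, ∫ t, F m t = 0 := by
    intro m
    have h1 : SpecIn (fun t => 𝓕 (mtS f α (vec m)) t * w t) D := by
      refine hS.mul (mtS f α (vec m)) (mtS_compact f α (vec m)) fun x hx y hy => ?_
      have h2 := mtS_tsupport f α (vec m) hy
      have h3 := hD x hx (y + α) h2
      have h4 : x + α - (y + α) = x - y := by abel
      rwa [h4] at h3
    have h5 := h1 u hu
    have h6 : ∀ t, F m t = (a m : ℂ) * (𝓕 (mtS f α (vec m)) t * w t * 𝓕 u t) := by
      intro t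
      rw [hF]
      simp only
      rw [fourier_mtS]
      ring
    simp only [h6]
    rw [integral_const_mul, h5, mul_zero]
  have hsum : Summable fun m => ∫ t, ‖F m t‖ := by
    refine summable_of_sum_le (c := C1 * C * ∫ t, ‖𝓕 u t‖)
      (fun m => integral_nonneg fun _ => norm_nonneg _) fun s => ?_
    rw [← integral_finsetSum _ fun m _ => (hFint m).norm, ← integral_const_mul]
    refine integral_mono_of_nonneg (Filter.Eventually.of_forall fun t =>
      Finset.sum_nonneg fun _ _ => norm_nonneg _) ((𝓕 u).integrable.norm.const_mul _)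
      (Filter.Eventually.of_forall fun t => ?_)
    simp only
    have h7 : ∀ m, ‖F m t‖ ≤ ‖psi f (t - vec m)‖ * (C * ‖𝓕 u t‖) := by
      intro m
      rw [hF]
      simp only
      rw [norm_mul, norm_mul, mul_assoc]
      exact mul_le_mul (norm_term_le f α ha t m)
        (mul_le_mul_of_nonneg_right (hw.bdd t) (norm_nonneg _)) (by positivity) (norm_nonneg _)
    calc ∑ m ∈ s, ‖F m t‖ ≤ ∑ m ∈ s, ‖psi f (t - vec m)‖ * (C * ‖𝓕 u t‖) :=
          Finset.sum_le_sum fun m _ => h7 m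
      _ = (∑ m ∈ s, ‖psi f (t - vec m)‖) * (C * ‖𝓕 u t‖) := by rw [Finset.sum_mul]
      _ ≤ C1 * (C * ‖𝓕 u t‖) := by
          refine mul_le_mul_of_nonneg_right ?_ (mul_nonneg hw.nonneg (norm_nonneg _))
          exact ((hC1 t).1.sum_le_tsum _ fun _ _ => norm_nonneg _).trans (hC1 t).2
      _ = C1 * C * ‖𝓕 u t‖ := by ring
  have key := hasSum_integral_of_summable_integral_norm hFint hsum
  simp only [hzero] at key
  have h8 : ∀ t, car f α a t * w t * 𝓕 u t = ∑' m, F m t := by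
    intro t
    rw [hF]
    simp only
    rw [tsum_mul_right, tsum_mul_right]
    rfl
  simp only [h8]
  exact key.unique hasSum_zero

end Pool.Agent.Run7.h987.BL
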