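import Pool.Agent.Run7.h987.BL.Dec

/-!
# Markers (helper987)
-/

set_option autoImplicit false
set_option maxHeartbeats 400000
set_option linter.unusedSectionVars false

open MeasureTheory Set SchwartzMap
open scoped FourierTransform SchwartzMap ContDiff Pointwise Topology LineDeriv

noncomputable section

namespace Pool.Agent.Run7.h987.BL

lemma exists_marker_fun {X : Type*} [TopologicalSpace X] [TopologicalSpace.MetrizableSpace X]
    {U : Set X} (hU : IsOpen U) : ∃ h : X → ℝ, Continuous h ∧ (∀ x, 0 ≤ h x) ∧ (∀ x, h x ≤ 1) ∧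
      ∀ x, h x ≠ 0 ↔ x ∈ U := by
  let _ := TopologicalSpace.metrizableSpaceMetric X
  by_cases hne : (Uᶜ).Nonempty
  · refine ⟨fun x => min 1 (Metric.infDist x Uᶜ),
      continuous_const.min (Metric.continuous_infDist_pt _),
      fun x => le_min zero_le_one Metric.infDist_nonneg, fun x => min_le_left _ _, fun x => ?_⟩
    have h1 := hU.isClosed_compl.notMem_iff_infDist_pos hne (x := x)
    rw [Set.mem_compl_iff, not_not] at h1
    rw [h1]
    constructor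
    · intro h
      rcases (Metric.infDist_nonneg (x := x) (s := Uᶜ)).lt_or_eq with h2 | h2
      · exact h2
      · exfalso
        apply h
        simp only [← h2]
        norm_num
    · intro h
      exact (lt_min one_pos h).ne'
  · have hU2 : U = univ := by
      rw [Set.not_nonempty_iff_eq_empty] at hne
      rw [← compl_compl U, hne, compl_empty]
    exact ⟨fun _ => 1, continuous_const, fun _ => zero_le_one, fun _ => le_rfl, fun x => by
      simp [hU2]⟩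

lemma sep_aux {k R : ℕ} {A B : (Fin k → ℤ) → ℝ}
    (hA : ∀ m m', m ≠ m' → A m ≠ 0 → A m' ≠ 0 → ¬ ∀ i, |m i - m' i| < ((2 * R : ℕ) : ℤ))
    (hB : ∀ m m', m ≠ m' → B m ≠ 0 → B m' ≠ 0 → ¬ ∀ i, |m i - m' i| < ((2 * R : ℕ) : ℤ))
    {m0 : Fin k → ℤ} (h0 : A m0 ≠ 0) : ∃ m1, ∀ m, m ≠ m0 → m ≠ m1 →
      (∀ i, |m0 i - m i| < (R : ℤ)) → A m = 0 ∧ B m = 0 := by
  have hAz : ∀ m, m ≠ m0 → (∀ i, |m0 i - m i| < (R : ℤ)) → A m = 0 := by
    intro m hm hnear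
    by_contra h
    refine hA m0 m hm.symm h0 h fun i => ?_
    have := hnear i
    have h2 := abs_nonneg (m0 i - m i)
    push_cast
    linarith
  by_cases hex : ∃ m1, m1 ≠ m0 ∧ (∀ i, |m0 i - m1 i| < (R : ℤ)) ∧ B m1 ≠ 0
  · obtain ⟨m1, hm1, hn1, hb1⟩ := hex
    refine ⟨m1, fun m hm hmm hnear => ⟨hAz m hm hnear, ?_⟩⟩
    by_contra h
    refine hB m m1 hmm h hb1 fun i => ?_
    have h1 := hnear i
    have h2 := hn1 i
    rw [abs_lt] at h1 h2 ⊢
    push_cast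
    constructor <;> linarith [h1.1, h1.2, h2.1, h2.2]
  · push Not at hex
    exact ⟨m0, fun m hm _ hnear => ⟨hAz m hm hnear, hex m hm hnear⟩⟩

lemma sep_diff {k R : ℕ} {A B : (Fin k → ℤ) → ℝ}
    (hA : ∀ m m', m ≠ m' → A m ≠ 0 → A m' ≠ 0 → ¬ ∀ i, |m i - m' i| < ((2 * R : ℕ) : ℤ))
    (hB : ∀ m m', m ≠ m' → B m ≠ 0 → B m' ≠ 0 → ¬ ∀ i, |m i - m' i| < ((2 * R : ℕ) : ℤ))
    (m0 : Fin k → ℤ) (h0 : A m0 - B m0 ≠ 0) : ∃ m1, ∀ m, m ≠ m0 → m ≠ m1 →
      (∀ i, |m0 i - m i| < (R : ℤ)) → A m - B m = 0 := by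
  by_cases hA0 : A m0 = 0
  · have hB0 : B m0 ≠ 0 := by
      intro h
      apply h0
      rw [hA0, h, sub_zero]
    obtain ⟨m1, h1⟩ := sep_aux hB hA hB0
    refine ⟨m1, fun m hm hmm hn => ?_⟩
    obtain ⟨h2, h3⟩ := h1 m hm hmm hn
    rw [h2, h3, sub_zero]
  · obtain ⟨m1, h1⟩ := sep_aux hA hB hA0
    refine ⟨m1, fun m hm hmm hn => ?_⟩
    obtain ⟨h2, h3⟩ := h1 m hm hmm hn
    rw [h2, h3, sub_zero]

lemma marker_sparse {k : ℕ} {X : Type*} [AddAction (Fin k → ℤ) X] {N : ℕ} {U : Set X}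
    (hU : ∀ n : Fin k → ℤ, n ≠ 0 → (∀ i, |n i| < (N : ℤ)) →
      Disjoint U ((fun x => n +ᵥ x) '' U)) {h : X → ℝ} (hh : ∀ x, h x ≠ 0 ↔ x ∈ U) (x : X)
    (m m' : Fin k → ℤ) (hne : m ≠ m') (h1 : h (m +ᵥ x) ≠ 0) (h2 : h (m' +ᵥ x) ≠ 0) :
    ¬ ∀ i, |m i - m' i| < (N : ℤ) := by
  intro hn
  have h3 := hU (m - m') (sub_ne_zero.mpr hne) hn
  rw [hh] at h1 h2
  refine Set.disjoint_left.mp h3 h1 ⟨m' +ᵥ x, h2, ?_⟩
  change (m - m') +ᵥ (m' +ᵥ x) = m +ᵥ x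
  rw [vadd_vadd, sub_add_cancel]

/-- equivariance of carriers -/
lemma car_shift {k : ℕ} {X : Type*} [AddAction (Fin k → ℤ) X] (f : ContDiffBump (0 : E k))
    (α : E k) (h : X → ℝ) (n : Fin k → ℤ) (x : X) (t : E k) :
    car f α (fun m => h (m +ᵥ (n +ᵥ x))) t = car f α (fun m => h (m +ᵥ x)) (t + vec n) := by
  unfold car
  rw [← (Equiv.addRight n).tsum_eq (fun m : Fin k → ℤ =>
    ((h (m +ᵥ x) : ℝ) : ℂ) * ker f α (t + vec n - vec m))]
  congr 1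
  ext m
  change ((h (m +ᵥ (n +ᵥ x)) : ℝ) : ℂ) * ker f α (t - vec m) =
    ((h ((m + n) +ᵥ x) : ℝ) : ℂ) * ker f α (t + vec n - vec (m + n))
  rw [vadd_vadd, vec_add]
  congr 2
  abel

lemma car_sub {k : ℕ} (f : ContDiffBump (0 : E k)) (α : E k) {a b : (Fin k → ℤ) → ℝ}
    (ha : ∀ m, |a m| ≤ 1) (hb : ∀ m, |b m| ≤ 1) (t : E k) :
    car f α (fun m => a m - b m) t = car f α a t - car f α b t := by
  unfold car
  rw [← (car_summable f α ha t).tsum_sub (car_summable f α hb t)]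
  congr 1
  ext m
  push_cast
  ring

end Pool.Agent.Run7.h987.BL
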