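import Mathlib

/-!
# Band-limited functions: multiplication, filtering, separation of spectra (helper987)
-/

set_option autoImplicit false
set_option linter.unusedSectionVars false

open MeasureTheory Set SchwartzMap
open scoped FourierTransform SchwartzMap ContDiff Pointwise Topology Convolution

noncomputable section

namespace Pool.Agent.Run7.h987.BL

variable {V : Type*} [NormedAddCommGroup V] [InnerProductSpace ℝ V] [FiniteDimensional ℝ V]
  [MeasurableSpace V] [BorelSpace V]

/-- pointwise product of Schwartz functions -/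
def pm (f g : 𝓢(V, ℂ)) : 𝓢(V, ℂ) := pairing (ContinuousLinearMap.mul ℂ ℂ) f g

@[simp] lemma pm_apply (f g : 𝓢(V, ℂ)) (x : V) : pm f g x = f x * g x := by
  simp [pm, pairing_apply_apply]

/-- convolution of Schwartz functions -/
def cv (f g : 𝓢(V, ℂ)) : 𝓢(V, ℂ) := SchwartzMap.convolution (ContinuousLinearMap.mul ℂ ℂ) f g

lemma cv_apply (f g : 𝓢(V, ℂ)) (x : V) : cv f g x = ∫ t, f t * g (x - t) := by
  unfold cv
  rw [SchwartzMap.convolution_apply]
  simp [MeasureTheory.convolution]

lemma fourier_cv (f g : 𝓢(V, ℂ)) : 𝓕 (cv f g) = pm (𝓕 f) (𝓕 g) := by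
  unfold cv pm
  rw [SchwartzMap.fourier_convolution]

lemma fourier_fourier (f : 𝓢(V, ℂ)) (x : V) : 𝓕 (𝓕 f) x = f (-x) := by
  have h1 : 𝓕⁻ (𝓕 f) = f := FourierTransform.fourierInv_fourier_eq f
  have h2 : 𝓕⁻ (𝓕 f) (-x) = f (-x) := by rw [h1]
  rw [← h2, SchwartzMap.fourierInv_apply_eq]
  simp

lemma fourier_pm (f g : 𝓢(V, ℂ)) : 𝓕 (pm f g) = cv (𝓕 f) (𝓕 g) := by
  have h1 : 𝓕 (cv (𝓕 f) (𝓕 g)) = 𝓕 (𝓕 (pm f g)) := by
    rw [fourier_cv]
    ext x
    rw [pm_apply, fourier_fourier, fourier_fourier, fourier_fourier, pm_apply]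
  have h2 := congrArg (fun h : 𝓢(V, ℂ) => 𝓕⁻ h) h1
  simpa using h2.symm

lemma tsupport_pm_left (f g : 𝓢(V, ℂ)) : tsupport (pm f g) ⊆ tsupport f := by
  have : (pm f g : V → ℂ) = fun x => f x * g x := by ext x; simp
  rw [this]
  exact tsupport_mul_subset_left

lemma tsupport_pm_right (f g : 𝓢(V, ℂ)) : tsupport (pm f g) ⊆ tsupport g := by
  have : (pm f g : V → ℂ) = fun x => f x * g x := by ext x; simp
  rw [this]
  exact tsupport_mul_subset_right

lemma tsupport_cv (f g : 𝓢(V, ℂ)) (hf : IsCompact (tsupport f)) :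
    tsupport (cv f g) ⊆ tsupport f + tsupport g := by
  have hcl : IsClosed (tsupport f + tsupport g) := (isClosed_tsupport g).add_left_of_isCompact hf
  refine closure_minimal ?_ hcl
  intro x hx
  by_contra hcon
  apply hx
  rw [cv_apply]
  have : ∀ t, f t * g (x - t) = 0 := by
    intro t
    by_contra h
    have h1 : f t ≠ 0 := left_ne_zero_of_mul h
    have h2 : g (x - t) ≠ 0 := right_ne_zero_of_mul h
    exact hcon ⟨t, subset_tsupport _ h1, x - t, subset_tsupport _ h2, by simp⟩
  simp [this]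

/-- The Fourier transform of `f` (a tempered distribution) is supported in `S`. -/
def SpecIn (f : V → ℂ) (S : Set V) : Prop :=
  ∀ u : 𝓢(V, ℂ), Disjoint (tsupport u) S → ∫ t, f t * 𝓕 u t = 0

/-- `f` is continuous and bounded by `C` -/
structure BC (f : V → ℂ) (C : ℝ) : Prop where
  cont : Continuous f
  bdd : ∀ t, ‖f t‖ ≤ C

omit [FiniteDimensional ℝ V] [MeasurableSpace V] [BorelSpace V] in
lemma BC.nonneg {f : V → ℂ} {C : ℝ} (h : BC f C) : 0 ≤ C := (norm_nonneg _).trans (h.bdd 0)

lemma BC.integrable {f : V → ℂ} {C : ℝ} (h : BC f C) (g : 𝓢(V, ℂ)) :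
    Integrable (fun t => f t * g t) :=
  g.integrable.bdd_mul h.cont.aestronglyMeasurable (Filter.Eventually.of_forall h.bdd)

lemma SpecIn.mono {f : V → ℂ} {S T : Set V} (h : SpecIn f S) (hST : S ⊆ T) : SpecIn f T :=
  fun u hu => h u (hu.mono_right hST)

lemma SpecIn.sub {f g : V → ℂ} {C D : ℝ} (hf : BC f C) (hg : BC g D) {S : Set V}
    (h1 : SpecIn f S) (h2 : SpecIn g S) : SpecIn (fun t => f t - g t) S := by
  intro u hu
  simp only [sub_mul]
  rw [integral_sub (hf.integrable _) (hg.integrable _), h1 u hu, h2 u hu, sub_zero]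

/-- multiplication by the Fourier transform of a compactly supported Schwartz function -/
lemma SpecIn.mul {f : V → ℂ} {S D : Set V} (h : SpecIn f S) (θ : 𝓢(V, ℂ))
    (hθ : IsCompact (tsupport θ)) (hD : ∀ x ∈ S, ∀ y ∈ tsupport θ, x - y ∈ D) :
    SpecIn (fun t => 𝓕 θ t * f t) D := by
  intro u hu
  have h1 : Disjoint (tsupport (cv θ u)) S := by
    rw [Set.disjoint_left]
    intro x hx hxS
    obtain ⟨y, hy, z, hz, hyz⟩ := tsupport_cv θ u hθ hx
    have hz' : z = x - y := by rw [← hyz]; simp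
    exact Set.disjoint_left.mp hu hz (hz' ▸ hD x hxS y hy)
  have h2 := h _ h1
  rw [fourier_cv] at h2
  rw [← h2]
  congr 1
  ext t
  simp
  ring

/-- the filter with frequency response `χ` -/
def filt (χ : 𝓢(V, ℂ)) (f : V → ℂ) (t : V) : ℂ := ∫ w, f (t + w) * 𝓕 χ w

lemma filt_eq (χ : 𝓢(V, ℂ)) (f : V → ℂ) (t : V) : filt χ f t = ∫ u, f u * 𝓕 χ (u - t) := by
  unfold filt
  rw [← integral_sub_right_eq_self (fun w => f (t + w) * 𝓕 χ w) t]
  congr 1
  ext u
  congr 2
  abel

lemma filt_bc {f : V → ℂ} {C : ℝ} (h : BC f C) (χ : 𝓢(V, ℂ)) :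
    BC (filt χ f) (C * ∫ w, ‖𝓕 χ w‖) := by
  constructor
  · apply continuous_of_dominated (bound := fun w => C * ‖𝓕 χ w‖)
    · intro t
      exact ((h.cont.comp (continuous_const.add continuous_id)).mul
        (𝓕 χ).continuous).aestronglyMeasurable
    · intro t
      refine Filter.Eventually.of_forall fun w => ?_
      rw [norm_mul]
      exact mul_le_mul_of_nonneg_right (h.bdd _) (norm_nonneg _)
    · exact (𝓕 χ).integrable.norm.const_mul C
    · refine Filter.Eventually.of_forall fun w => ?_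
      exact (h.cont.comp (continuous_id.add continuous_const)).mul continuous_const
  · intro t
    unfold filt
    rw [← integral_const_mul]
    apply norm_integral_le_of_norm_le ((𝓕 χ).integrable.norm.const_mul C)
    refine Filter.Eventually.of_forall fun w => ?_
    rw [norm_mul]
    exact mul_le_mul_of_nonneg_right (h.bdd _) (norm_nonneg _)

/-- the Fourier transform of the filtered function is `χ` times the Fourier transform -/
lemma integral_filt {f : V → ℂ} {C : ℝ} (h : BC f C) (χ φ : 𝓢(V, ℂ)) :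
    ∫ t, filt χ f t * 𝓕 φ t = ∫ u, f u * 𝓕 (pm φ χ) u := by
  have h1 : ∀ u, 𝓕 (pm φ χ) u = ∫ t, 𝓕 φ t * 𝓕 χ (u - t) := by
    intro u
    rw [fourier_pm, cv_apply]
  have hint : Integrable (fun p : V × V => f p.2 * 𝓕 χ (p.2 - p.1) * 𝓕 φ p.1)
      (volume.prod volume) := by
    have h2 : Integrable (fun p : V × V => 𝓕 φ p.2 * 𝓕 χ (p.1 - p.2)) (volume.prod volume) :=
      Integrable.convolution_integrand (ContinuousLinearMap.mul ℂ ℂ)
        (𝓕 φ).integrable (𝓕 χ).integrable
    have h3 := h2.swap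
    have h4 : Integrable (fun p : V × V => f p.2 * (𝓕 φ p.1 * 𝓕 χ (p.2 - p.1)))
        (volume.prod volume) := by
      refine Integrable.bdd_mul h3 (c := C) ?_ (Filter.Eventually.of_forall fun p => h.bdd _)
      exact (h.cont.comp continuous_snd).aestronglyMeasurable
    refine h4.congr (Filter.Eventually.of_forall fun p => ?_)
    simp only
    ring
  calc ∫ t, filt χ f t * 𝓕 φ t = ∫ t, ∫ u, f u * 𝓕 χ (u - t) * 𝓕 φ t := by
        congr 1
        ext t
        rw [filt_eq, ← integral_mul_const]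
    _ = ∫ u, ∫ t, f u * 𝓕 χ (u - t) * 𝓕 φ t := integral_integral_swap hint
    _ = ∫ u, f u * 𝓕 (pm φ χ) u := by
        congr 1
        ext u
        rw [h1, ← integral_const_mul]
        congr 1
        ext t
        ring

lemma SpecIn.filt {f : V → ℂ} {C : ℝ} (h : BC f C) {S : Set V} (hS : SpecIn f S)
    (χ : 𝓢(V, ℂ)) : SpecIn (filt χ f) S := by
  intro u hu
  rw [integral_filt h]
  exact hS _ (hu.mono_left (tsupport_pm_left u χ))

lemma specIn_filt {f : V → ℂ} {C : ℝ} (h : BC f C) (χ : 𝓢(V, ℂ)) :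
    SpecIn (BL.filt χ f) (tsupport χ) := by
  intro u hu
  rw [integral_filt h]
  have : pm u χ = 0 := by
    ext x
    rw [pm_apply]
    by_cases hx : x ∈ tsupport u
    · have : χ x = 0 := image_eq_zero_of_notMem_tsupport (Set.disjoint_left.mp hu hx)
      simp [this]
    · have : u x = 0 := image_eq_zero_of_notMem_tsupport hx
      simp [this]
  rw [this]
  simp

/-- a bounded continuous function with vanishing Fourier transform is zero -/
lemma eq_zero_of_forall {f : V → ℂ} {C : ℝ} (h : BC f C)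
    (h0 : ∀ u : 𝓢(V, ℂ), ∫ t, f t * 𝓕 u t = 0) : ∀ t, f t = 0 := by
  have h1 : ∀ g : 𝓢(V, ℂ), ∫ t, f t * g t = 0 := by
    intro g
    have := h0 (𝓕⁻ g)
    rwa [FourierTransform.fourier_fourierInv_eq] at this
  have h2 : ∀ᵐ t, f t = 0 := by
    apply ae_eq_zero_of_integral_contDiff_smul_eq_zero (μ := volume)
      h.cont.locallyIntegrable
    intro g hg hgc
    have hg1 : HasCompactSupport (Complex.ofRealCLM ∘ g) := hgc.comp_left rfl
    have hg2 : ContDiff ℝ ∞ (Complex.ofRealCLM ∘ g) := by fun_prop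
    have := h1 (hg1.toSchwartzMap hg2)
    rw [← this]
    congr 1
    ext t
    simp [mul_comm]
  have h3 : f =ᵐ[volume] (fun _ => (0 : ℂ)) := h2
  have h4 := (Continuous.ae_eq_iff_eq volume h.cont continuous_const).mp h3
  exact fun t => congrFun h4 t

lemma specIn_one : SpecIn (fun _ : V => (1 : ℂ)) {0} := by
  intro u hu
  have h0 : u 0 = 0 :=
    image_eq_zero_of_notMem_tsupport fun h => Set.disjoint_left.mp hu h rfl
  have h1 : 𝓕⁻ (𝓕 u) 0 = u 0 := by rw [FourierTransform.fourierInv_fourier_eq]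
  rw [SchwartzMap.fourierInv_coe, Real.fourierInv_eq] at h1
  simp only [one_mul]
  rw [h0] at h1
  simpa using h1

end Pool.Agent.Run7.h987.BL
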