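import Pool.Agent.Run7.h987.BL.Bump

/-!
# Unique continuation for bounded band-limited functions (helper987)
-/

set_option autoImplicit false
set_option linter.unusedSectionVars false

open MeasureTheory Set SchwartzMap
open scoped FourierTransform SchwartzMap ContDiff Pointwise Topology LineDeriv

noncomputable section

namespace Pool.Agent.Run7.h987.BL

variable {V : Type*} [NormedAddCommGroup V] [InnerProductSpace ℝ V] [FiniteDimensional ℝ V]
  [MeasurableSpace V] [BorelSpace V]

/-- the filter computing the derivative in direction `v` -/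
def dfilt (η : 𝓢(V, ℂ)) (v : V) : 𝓢(V, ℂ) := 𝓕⁻ (-(∂_{v} (𝓕 η : 𝓢(V, ℂ)) : 𝓢(V, ℂ)))

lemma fourier_dfilt (η : 𝓢(V, ℂ)) (v x : V) :
    𝓕 (dfilt η v) x = -(fderiv ℝ (𝓕 η : 𝓢(V, ℂ)) x v) := by
  unfold dfilt
  rw [FourierTransform.fourier_fourierInv_eq]
  rfl

lemma filt_sub_eq {e : V → ℂ} {C : ℝ} (he : BC e C) (η : 𝓢(V, ℂ)) (t v : V) (s : ℝ) :
    ∫ r in (0 : ℝ)..s, filt (dfilt η v) e (t + r • v) = filt η e (t + s • v) - filt η e t := by
  have h1 : ∀ r : ℝ, filt (dfilt η v) e (t + r • v) =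
      ∫ u, e u * 𝓕 (dfilt η v) (u - (t + r • v)) := fun r => filt_eq _ _ _
  simp only [h1]
  have hcont : Continuous (fun p : ℝ × V => e p.2 * 𝓕 (dfilt η v) (p.2 - (t + p.1 • v))) := by
    have := he.cont
    have h2 := (𝓕 (dfilt η v)).continuous
    fun_prop
  have hint : Integrable (Function.uncurry fun (r : ℝ) (u : V) =>
      e u * 𝓕 (dfilt η v) (u - (t + r • v)))
      ((volume.restrict (Set.uIoc 0 s)).prod volume) := by
    have : IsFiniteMeasure (volume.restrict (Set.uIoc 0 s)) := by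
      unfold Set.uIoc
      infer_instance
    refine (integrable_prod_iff hcont.aestronglyMeasurable).mpr ?_
    have hi : ∀ r : ℝ, Integrable (fun u => ‖𝓕 (dfilt η v) (u - (t + r • v))‖) volume :=
      fun r => ((𝓕 (dfilt η v)).integrable.comp_sub_right (t + r • v)).norm
    constructor
    · refine Filter.Eventually.of_forall fun r => ?_
      refine Integrable.bdd_mul (((𝓕 (dfilt η v)).integrable.comp_sub_right (t + r • v)))
        (c := C) he.cont.aestronglyMeasurable (Filter.Eventually.of_forall fun p => he.bdd _)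
    · refine Integrable.mono' (g := fun _ => C * ∫ w, ‖𝓕 (dfilt η v) w‖) ?_ ?_ ?_
      · exact integrable_const _
      · exact hcont.aestronglyMeasurable.norm.integral_prod_right'
      · refine Filter.Eventually.of_forall fun r => ?_
        rw [Real.norm_of_nonneg (integral_nonneg fun _ => norm_nonneg _)]
        have h3 : ∫ w, ‖𝓕 (dfilt η v) w‖ = ∫ u, ‖𝓕 (dfilt η v) (u - (t + r • v))‖ :=
          (integral_sub_right_eq_self (fun w => ‖𝓕 (dfilt η v) w‖) (t + r • v)).symm
        rw [h3, ← integral_const_mul]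
        refine integral_mono_of_nonneg (Filter.Eventually.of_forall fun _ => norm_nonneg _)
          ((hi r).const_mul C) (Filter.Eventually.of_forall fun u => ?_)
        simp only [norm_mul]
        exact mul_le_mul_of_nonneg_right (he.bdd _) (norm_nonneg _)
  rw [intervalIntegral_integral_swap hint]
  have h4 : ∀ u : V, ∫ r in (0 : ℝ)..s, e u * 𝓕 (dfilt η v) (u - (t + r • v)) =
      e u * 𝓕 η (u - (t + s • v)) - e u * 𝓕 η (u - t) := by
    intro u
    rw [intervalIntegral.integral_const_mul, ← mul_sub]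
    congr 1
    have h5 : ∀ r : ℝ, HasDerivAt (fun r : ℝ => 𝓕 η (u - (t + r • v)))
        (𝓕 (dfilt η v) (u - (t + r • v))) r := by
      intro r
      rw [fourier_dfilt]
      have h6 : HasDerivAt (fun r : ℝ => u - (t + r • v)) (-v) r := by
        have := ((hasDerivAt_id r).smul_const v).const_add t |>.const_sub u
        simpa using this
      have h7 := ((𝓕 η : 𝓢(V, ℂ)).hasFDerivAt (u - (t + r • v))).comp_hasDerivAt r h6
      have h8 : -(fderiv ℝ (𝓕 η : 𝓢(V, ℂ)) (u - (t + r • v)) v) =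
          fderiv ℝ (𝓕 η : 𝓢(V, ℂ)) (u - (t + r • v)) (-v) := by simp
      rw [h8]
      exact h7
    rw [intervalIntegral.integral_eq_sub_of_hasDerivAt (fun r _ => h5 r)]
    · simp
    · apply Continuous.intervalIntegrable
      have h2 := (𝓕 (dfilt η v)).continuous
      fun_prop
  simp only [h4]
  have hj : ∀ t' : V, Integrable (fun u => e u * 𝓕 η (u - t')) volume := fun t' =>
    Integrable.bdd_mul (((𝓕 η).integrable.comp_sub_right t'))
        (c := C) he.cont.aestronglyMeasurable (Filter.Eventually.of_forall fun p => he.bdd _)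
  rw [integral_sub (hj _) (hj _), filt_eq, filt_eq]

lemma filt_hasDerivAt {e : V → ℂ} {C : ℝ} (he : BC e C) (η : 𝓢(V, ℂ)) (t v : V) (s : ℝ) :
    HasDerivAt (fun s : ℝ => filt η e (t + s • v)) (filt (dfilt η v) e (t + s • v)) s := by
  have h1 : (fun s : ℝ => filt η e (t + s • v)) = fun s : ℝ =>
      filt η e t + ∫ r in (0 : ℝ)..s, filt (dfilt η v) e (t + r • v) := by
    ext s
    rw [filt_sub_eq he]
    ring
  rw [h1]
  have hc : Continuous (fun r : ℝ => filt (dfilt η v) e (t + r • v)) :=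
    (filt_bc he (dfilt η v)).cont.comp (by fun_prop)
  exact (intervalIntegral.integral_hasDerivAt_right (hc.intervalIntegrable _ _)
    (hc.stronglyMeasurableAtFilter _ _) hc.continuousAt).const_add _

/-- local version of unique continuation -/
lemma uc_aux {S O : Set V} (η : 𝓢(V, ℂ)) (hO : IsOpen O) (hSO : S ⊆ O)
    (h1 : ∀ x ∈ O, η x = 1) {B : ℝ} (hB : B = ∫ w, ‖fderiv ℝ (𝓕 η : 𝓢(V, ℂ)) w‖) (n : ℕ) :
    ∀ (e : V → ℂ) (C : ℝ), BC e C → SpecIn e S → ∀ t0 : V, (∀ᶠ t in 𝓝 t0, e t = 0) →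
      ∀ v : V, ‖e (t0 + v)‖ ≤ C * (B * ‖v‖) ^ n := by
  have hBint : Integrable (fun w => ‖fderiv ℝ (𝓕 η : 𝓢(V, ℂ)) w‖) := by
    have := (SchwartzMap.fderivCLM ℝ V ℂ (𝓕 η)).integrable (μ := volume)
    exact this.norm
  have hB0 : 0 ≤ B := by
    rw [hB]
    exact integral_nonneg fun _ => norm_nonneg _
  induction n with
  | zero =>
    intro e C he _ t0 _ v
    simpa using he.bdd _
  | succ n ih =>
    intro e C he hS t0 h0 v
    have hrep := filt_eq_self he hS η hO hSO h1
    set ev := filt (dfilt η v) e with hev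
    have hbc := filt_bc he (dfilt η v)
    have hbc' : BC ev (C * (B * ‖v‖)) := by
      refine ⟨hbc.cont, fun t => (hbc.bdd t).trans ?_⟩
      refine mul_le_mul_of_nonneg_left ?_ he.nonneg
      rw [hB, ← integral_mul_const]
      refine integral_mono_of_nonneg (Filter.Eventually.of_forall fun _ => norm_nonneg _)
        (hBint.mul_const _) (Filter.Eventually.of_forall fun w => ?_)
      simp only
      rw [fourier_dfilt, norm_neg]
      exact ContinuousLinearMap.le_opNorm _ _
    have hSv : SpecIn ev S := hS.filt he (dfilt η v)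
    have hder : ∀ t (s : ℝ), HasDerivAt (fun s : ℝ => e (t + s • v)) (ev (t + s • v)) s := by
      intro t s
      have := filt_hasDerivAt he η t v s
      simpa only [hrep] using this
    have hz : ∀ᶠ t in 𝓝 t0, ev t = 0 := by
      filter_upwards [h0.eventually_nhds] with t ht
      have h2 := hder t 0
      have h3 : (fun s : ℝ => e (t + s • v)) =ᶠ[𝓝 0] fun _ => (0 : ℂ) := by
        have hc : Filter.Tendsto (fun s : ℝ => t + s • v) (𝓝 0) (𝓝 t) := by
          have : Continuous fun s : ℝ => t + s • v := by fun_prop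
          simpa using this.tendsto 0
        exact hc.eventually ht
      have h4 := h2.congr_of_eventuallyEq h3.symm
      have h5 := h4.unique (hasDerivAt_const (0 : ℝ) (0 : ℂ))
      simpa using h5
    have hb : ∀ s ∈ Icc (0 : ℝ) 1, ‖ev (t0 + s • v)‖ ≤ C * (B * ‖v‖) ^ (n + 1) := by
      intro s hs
      refine (ih ev _ hbc' hSv t0 hz (s • v)).trans ?_
      rw [show C * (B * ‖v‖) ^ (n + 1) = C * (B * ‖v‖) * (B * ‖v‖) ^ n by ring]
      refine mul_le_mul_of_nonneg_left ?_ hbc'.nonneg
      refine pow_le_pow_left₀ (by positivity) ?_ n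
      refine mul_le_mul_of_nonneg_left ?_ hB0
      rw [norm_smul, Real.norm_of_nonneg hs.1]
      exact mul_le_of_le_one_left (norm_nonneg _) hs.2
    have h6 := norm_image_sub_le_of_norm_deriv_le_segment' (f := fun s : ℝ => e (t0 + s • v))
      (f' := fun s => ev (t0 + s • v)) (a := 0) (b := 1) (C := C * (B * ‖v‖) ^ (n + 1))
      (fun s _ => (hder t0 s).hasDerivWithinAt) (fun s hs => hb s ⟨hs.1, hs.2.le⟩) 1
      (by simp)
    have h7 : e t0 = 0 := h0.self_of_nhds
    simpa [h7] using h6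

/-- unique continuation: a bounded function with compact spectrum which vanishes near a point
vanishes identically -/
theorem uc {S : Set V} (hS : IsCompact S) {e : V → ℂ} {C : ℝ} (he : BC e C) (hSe : SpecIn e S)
    {t0 : V} (h0 : ∀ᶠ t in 𝓝 t0, e t = 0) : ∀ t, e t = 0 := by
  obtain ⟨η, -, -, O, hO, hSO, h1⟩ := exists_bump hS isOpen_univ (subset_univ S)
  set B := ∫ w, ‖fderiv ℝ (𝓕 η : 𝓢(V, ℂ)) w‖ with hB
  have hB0 : 0 ≤ B := integral_nonneg fun _ => norm_nonneg _
  have key : ∀ t0, (∀ᶠ t in 𝓝 t0, e t = 0) → ∀ v, (B + 1) * ‖v‖ < 1 → e (t0 + v) = 0 := by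
    intro t0 h0 v hv
    have hlt : B * ‖v‖ < 1 := by nlinarith [norm_nonneg v]
    have hlim : Filter.Tendsto (fun n : ℕ => C * (B * ‖v‖) ^ n) Filter.atTop (𝓝 (C * 0)) :=
      (tendsto_pow_atTop_nhds_zero_of_lt_one (by positivity) hlt).const_mul C
    have h2 : ‖e (t0 + v)‖ ≤ C * 0 := by
      refine ge_of_tendsto' hlim fun n => ?_
      exact uc_aux η hO hSO h1 hB n e C he hSe t0 h0 v
    simpa using h2
  set ρ : ℝ := (B + 1)⁻¹ with hρ
  have hρ0 : 0 < ρ := by positivity
  have key2 : ∀ t0, (∀ᶠ t in 𝓝 t0, e t = 0) → ∀ t, dist t t0 < ρ → (∀ᶠ t' in 𝓝 t, e t' = 0) := by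
    intro t0 h0 t ht
    have : Metric.ball t0 ρ ∈ 𝓝 t := Metric.isOpen_ball.mem_nhds ht
    filter_upwards [this] with t' ht'
    have h3 := key t0 h0 (t' - t0) (by
      rw [Metric.mem_ball, dist_eq_norm] at ht'
      calc (B + 1) * ‖t' - t0‖ < (B + 1) * ρ :=
            mul_lt_mul_of_pos_left ht' (by positivity)
        _ = 1 := mul_inv_cancel₀ (by positivity))
    simpa using h3
  have hclopen : IsClopen {t | ∀ᶠ t' in 𝓝 t, e t' = 0} := by
    constructor
    · rw [← closure_subset_iff_isClosed]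
      intro t ht
      rw [Metric.mem_closure_iff] at ht
      obtain ⟨t1, ht1, hd⟩ := ht ρ hρ0
      exact key2 t1 ht1 t hd
    · exact isOpen_setOfPred_eventually_nhds
  have huniv := hclopen.eq_univ ⟨t0, h0⟩
  intro t
  have : t ∈ {t | ∀ᶠ t' in 𝓝 t, e t' = 0} := huniv ▸ mem_univ t
  exact this.self_of_nhds

end Pool.Agent.Run7.h987.BL
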