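import Pool.Agent.Run7.h987.BL.Mark
import Pool.Agent.Run7.h987.BL.Geo

/-!
# Ingredients of the transfer theorem (helper987)
-/

set_option autoImplicit false
set_option maxHeartbeats 400000
set_option linter.unusedSectionVars false

open MeasureTheory Set SchwartzMap
open scoped FourierTransform SchwartzMap ContDiff Pointwise Topology LineDeriv

noncomputable section

namespace Pool.Agent.Run7.h987.BL

variable {k : ℕ}

/-- cubes in Euclidean space -/
def cub (q : Fin k → ℝ) (r : ℝ) : Set (E k) := {x | dist (WithLp.ofLp x) q ≤ r}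

lemma isCompact_cub (q : Fin k → ℝ) (r : ℝ) : IsCompact (cub q r) := by
  have h1 := (isCompact_closedBall q r).image (PiLp.continuous_toLp 2 (fun _ : Fin k => ℝ))
  have h2 : cub q r = (WithLp.toLp 2 : (Fin k → ℝ) → E k) '' Metric.closedBall q r := by
    ext x
    constructor
    · intro h
      exact ⟨WithLp.ofLp x, h, rfl⟩
    · rintro ⟨y, hy, rfl⟩
      exact hy
  rw [h2]
  exact h1

lemma norm_ofLp_le (x : E k) : ‖WithLp.ofLp x‖ ≤ ‖x‖ := by
  rw [pi_norm_le_iff_of_nonneg (norm_nonneg _)]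
  intro i
  exact PiLp.norm_apply_le x i

lemma packing_E {K O : Set (E k)} (hK : IsCompact K) (hO : IsOpen O)
    (hvol : volume K < volume O) :
    ∃ (ι : Type) (_ : Fintype ι) (s s' : ℝ) (p : ι → Fin k → ℝ) (q : Option ι → Fin k → ℝ),
      0 < s ∧ s < s' ∧ (K ⊆ ⋃ i, cub (p i) s) ∧ (∀ j, cub (q j) s' ⊆ O) ∧
      ∀ j j', j ≠ j' → 2 * s' ≤ dist (q j) (q j') := by
  set T : (Fin k → ℝ) → E k := WithLp.toLp 2 with hT
  have hTc : Continuous T := PiLp.continuous_toLp 2 (fun _ : Fin k => ℝ)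
  have hvolT : ∀ S : Set (E k), MeasurableSet S → volume (T ⁻¹' S) = volume S := fun S hS =>
    (PiLp.volume_preserving_toLp (Fin k)).measure_preimage hS.nullMeasurableSet
  have hK' : IsCompact (T ⁻¹' K) := by
    have h1 := hK.image (PiLp.continuous_ofLp 2 (fun _ : Fin k => ℝ))
    have h2 : T ⁻¹' K = WithLp.ofLp '' K := by
      ext x
      constructor
      · intro h
        exact ⟨T x, h, rfl⟩
      · rintro ⟨y, hy, rfl⟩
        exact hy
    rw [h2]
    exact h1
  have hv : volume (T ⁻¹' K) < volume (T ⁻¹' O) := by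
    rw [hvolT K hK.measurableSet, hvolT O hO.measurableSet]
    exact hvol
  obtain ⟨ι, hι, s, s', p, q, h1, h2, h3, h4, h5⟩ := packing hK' (hO.preimage hTc) hv
  refine ⟨ι, hι, s, s', p, q, h1, h2, ?_, ?_, h5⟩
  · intro x hx
    have hx' : WithLp.ofLp x ∈ T ⁻¹' K := hx
    have := h3 hx'
    rw [mem_iUnion] at this ⊢
    exact this
  · intro j x hx
    have : WithLp.ofLp x ∈ Metric.closedBall (q j) s' := hx
    exact h4 j this

variable {X : Type*} {ι : Type}

/-- the components of the coded function -/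
def Wf (χ : ι → 𝓢(E k, ℂ)) (F : X → C(E k, ℂ)) (j : Option ι) (x : X) (t : E k) : ℂ :=
  match j with
  | none => 1
  | some i => filt (χ i) (F x) t

/-- bounds of the components -/
def CW (χ : ι → 𝓢(E k, ℂ)) (j : Option ι) : ℝ :=
  match j with
  | none => 1
  | some i => 1 * ∫ w, ‖𝓕 (χ i) w‖

/-- spectra of the components -/
def Sf (χ : ι → 𝓢(E k, ℂ)) (j : Option ι) : Set (E k) :=
  match j with
  | none => {0}
  | some i => tsupport (χ i)

lemma F_bc {F : X → C(E k, ℂ)} (hFb : ∀ x t, ‖F x t‖ ≤ 1) (x : X) : BC (F x) 1 :=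
  ⟨(F x).continuous, hFb x⟩

lemma Wf_bc (χ : ι → 𝓢(E k, ℂ)) {F : X → C(E k, ℂ)} (hFb : ∀ x t, ‖F x t‖ ≤ 1) (j : Option ι)
    (x : X) : BC (Wf χ F j x) (CW χ j) := by
  cases j with
  | none => exact ⟨continuous_const, fun t => by simp [Wf, CW]⟩
  | some i => exact filt_bc (F_bc hFb x) (χ i)

lemma CW_nonneg (χ : ι → 𝓢(E k, ℂ)) (j : Option ι) : 0 ≤ CW χ j := by
  cases j with
  | none => exact zero_le_one
  | some i => exact mul_nonneg zero_le_one (integral_nonneg fun _ => norm_nonneg _)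

lemma Wf_spec (χ : ι → 𝓢(E k, ℂ)) {F : X → C(E k, ℂ)} (hFb : ∀ x t, ‖F x t‖ ≤ 1) (j : Option ι)
    (x : X) : SpecIn (Wf χ F j x) (Sf χ j) := by
  cases j with
  | none => exact specIn_one
  | some i => exact specIn_filt (F_bc hFb x) (χ i)

lemma Wf_cont [TopologicalSpace X] [FirstCountableTopology X] (χ : ι → 𝓢(E k, ℂ))
    {F : X → C(E k, ℂ)} (hFc : Continuous F) (hFb : ∀ x t, ‖F x t‖ ≤ 1) (j : Option ι) :
    Continuous fun p : X × E k => Wf χ F j p.1 p.2 := by
  cases j with
  | none => exact continuous_const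
  | some i =>
    have hc : ∀ w : E k, Continuous fun p : X × E k => F p.1 (p.2 + w) := by
      intro w
      exact (hFc.comp continuous_fst).eval (continuous_snd.add continuous_const)
    change Continuous fun p : X × E k => ∫ w, F p.1 (p.2 + w) * 𝓕 (χ i) w
    apply continuous_of_dominated (bound := fun w => ‖𝓕 (χ i) w‖)
    · intro p
      have h1 : Continuous fun w => F p.1 (p.2 + w) * 𝓕 (χ i) w :=
        ((F p.1).continuous.comp (continuous_const.add continuous_id)).mul
          (𝓕 (χ i)).continuous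
      exact h1.aestronglyMeasurable
    · intro p
      refine Filter.Eventually.of_forall fun w => ?_
      rw [norm_mul]
      exact mul_le_of_le_one_left (norm_nonneg _) (hFb _ _)
    · exact (𝓕 (χ i)).integrable.norm
    · refine Filter.Eventually.of_forall fun w => ?_
      exact (hc w).mul continuous_const

lemma Wf_equiv [AddAction (Fin k → ℤ) X] (χ : ι → 𝓢(E k, ℂ))
    {F : X → C(E k, ℂ)} (hFe : ∀ (n : Fin k → ℤ) x t, F (n +ᵥ x) t = F x (t + vec n))
    (j : Option ι) (n : Fin k → ℤ) (x : X) (t : E k) :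
    Wf χ F j (n +ᵥ x) t = Wf χ F j x (t + vec n) := by
  cases j with
  | none => rfl
  | some i =>
    change ∫ w, F (n +ᵥ x) (t + w) * 𝓕 (χ i) w = ∫ w, F x (t + vec n + w) * 𝓕 (χ i) w
    congr 1
    ext w
    rw [hFe, add_right_comm]

end Pool.Agent.Run7.h987.BL
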