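import Pool.Agent.Run7.h987.BL.UC

/-!
# The window function and its modulated translates (helper987)
-/

set_option autoImplicit false
set_option linter.unusedSectionVars false

open MeasureTheory Set SchwartzMap
open scoped FourierTransform SchwartzMap ContDiff Pointwise Topology LineDeriv

noncomputable section

namespace Pool.Agent.Run7.h987.BL

variable {V : Type*} [NormedAddCommGroup V] [InnerProductSpace ℝ V] [FiniteDimensional ℝ V]
  [MeasurableSpace V] [BorelSpace V]

/-- the window, as a complex function translated by `a` and modulated by `m` -/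
def mtFun (f : ContDiffBump (0 : V)) (a m : V) : V → ℂ :=
  fun x => Complex.exp (((2 * Real.pi * inner ℝ m x : ℝ) : ℂ) * Complex.I) *
    ((f.normed volume (x + a) : ℝ) : ℂ)

lemma mtFun_support (f : ContDiffBump (0 : V)) (a m : V) :
    Function.support (mtFun f a m) ⊆ {x | x + a ∈ Metric.closedBall (0 : V) f.rOut} := by
  intro x hx
  have h1 : f.normed volume (x + a) ≠ 0 := by
    intro h
    apply hx
    simp [mtFun, h]
  have h2 : x + a ∈ Function.support (f.normed volume) := h1
  rw [f.support_normed_eq] at h2
  exact Metric.ball_subset_closedBall h2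

lemma mtFun_tsupport (f : ContDiffBump (0 : V)) (a m : V) :
    tsupport (mtFun f a m) ⊆ {x | x + a ∈ Metric.closedBall (0 : V) f.rOut} :=
  closure_minimal (mtFun_support f a m)
    (Metric.isClosed_closedBall.preimage (continuous_id.add continuous_const))

lemma mtFun_compact (f : ContDiffBump (0 : V)) (a m : V) : HasCompactSupport (mtFun f a m) := by
  refine HasCompactSupport.intro (K := Metric.closedBall (-a) f.rOut)
    (isCompact_closedBall _ _) fun x hx => ?_
  by_contra h
  apply hx
  have := mtFun_support f a m h
  simpa [Metric.mem_closedBall, dist_eq_norm] using this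

lemma mtFun_contDiff (f : ContDiffBump (0 : V)) (a m : V) : ContDiff ℝ ∞ (mtFun f a m) := by
  unfold mtFun
  apply ContDiff.mul
  · apply ContDiff.cexp
    apply ContDiff.mul _ contDiff_const
    exact Complex.ofRealCLM.contDiff.comp
      (contDiff_const.mul (contDiff_const.inner ℝ contDiff_id))
  · exact Complex.ofRealCLM.contDiff.comp (f.contDiff_normed.comp (by fun_prop))

/-- the window, translated and modulated, as a Schwartz function -/
def mtS (f : ContDiffBump (0 : V)) (a m : V) : 𝓢(V, ℂ) :=
  (mtFun_compact f a m).toSchwartzMap (mtFun_contDiff f a m)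

lemma mtS_apply (f : ContDiffBump (0 : V)) (a m x : V) : mtS f a m x = mtFun f a m x := rfl

lemma mtS_tsupport (f : ContDiffBump (0 : V)) (a m : V) :
    tsupport (mtS f a m) ⊆ {x | x + a ∈ Metric.closedBall (0 : V) f.rOut} :=
  mtFun_tsupport f a m

lemma mtS_compact (f : ContDiffBump (0 : V)) (a m : V) : IsCompact (tsupport (mtS f a m)) :=
  mtFun_compact f a m

/-- the Fourier transform of the window -/
def psi (f : ContDiffBump (0 : V)) : 𝓢(V, ℂ) := 𝓕 (mtS f 0 0)

lemma psi_apply (f : ContDiffBump (0 : V)) (t : V) :
    psi f t = ∫ x, Complex.exp (((-2 * Real.pi * inner ℝ x t : ℝ) : ℂ) * Complex.I) *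
      ((f.normed volume x : ℝ) : ℂ) := by
  unfold psi
  rw [SchwartzMap.fourier_coe, Real.fourier_eq']
  congr 1
  ext x
  simp [mtS_apply, mtFun]

/-- the kernels -/
def ker (f : ContDiffBump (0 : V)) (a s : V) : ℂ :=
  Complex.exp (((2 * Real.pi * inner ℝ a s : ℝ) : ℂ) * Complex.I) * psi f s

lemma norm_ker (f : ContDiffBump (0 : V)) (a s : V) : ‖ker f a s‖ = ‖psi f s‖ := by
  unfold ker
  rw [norm_mul, Complex.norm_exp_ofReal_mul_I, one_mul]

lemma continuous_ker (f : ContDiffBump (0 : V)) (a : V) : Continuous (ker f a) := by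
  unfold ker
  have := (psi f).continuous
  fun_prop

lemma ker_zero (f : ContDiffBump (0 : V)) (a : V) : ker f a 0 = 1 := by
  unfold ker
  rw [psi_apply]
  simp only [inner_zero_right, mul_zero, Complex.ofReal_zero, zero_mul, Complex.exp_zero, one_mul]
  rw [integral_complex_ofReal, f.integral_normed]
  simp

lemma fourier_mtS (f : ContDiffBump (0 : V)) (a m t : V) :
    𝓕 (mtS f a m) t = ker f a (t - m) := by
  unfold ker
  rw [SchwartzMap.fourier_coe, Real.fourier_eq', psi_apply, ← integral_const_mul]
  refine Eq.trans ?_ (integral_add_right_eq_self _ a)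
  congr 1
  ext x
  rw [mtS_apply]
  unfold mtFun
  simp only [smul_eq_mul]
  rw [← mul_assoc, ← mul_assoc, ← Complex.exp_add, ← Complex.exp_add]
  congr 2
  rw [← add_mul, ← add_mul]
  congr 1
  rw [← Complex.ofReal_add, ← Complex.ofReal_add]
  congr 1
  rw [inner_add_left, inner_sub_right, inner_sub_right, real_inner_comm m x]
  ring

/-- strict decay away from zero -/
lemma norm_psi_lt_one (f : ContDiffBump (0 : V)) {v : V} (hv : v ≠ 0) : ‖psi f v‖ < 1 := by
  obtain ⟨z, hz, hzc⟩ : ∃ z : ℂ, ‖z‖ = 1 ∧ z * psi f v = (‖psi f v‖ : ℂ) := by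
    by_cases h : psi f v = 0
    · exact ⟨1, by simp, by simp [h]⟩
    · have hn : ‖psi f v‖ ≠ 0 := norm_ne_zero_iff.mpr h
      refine ⟨(‖psi f v‖ : ℂ) / psi f v, ?_, ?_⟩
      · rw [norm_div, Complex.norm_real, norm_norm, div_self hn]
      · rw [div_mul_cancel₀ _ h]
  set g : V → ℝ := fun x => f.normed volume x *
    (1 - (z * Complex.exp (((-2 * Real.pi * inner ℝ x v : ℝ) : ℂ) * Complex.I)).re) with hg
  have hcn : Continuous (f.normed volume) := f.continuous_normed
  have hgc : Continuous g := by
    rw [hg]
    refine hcn.mul (continuous_const.sub (Complex.continuous_re.comp ?_))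
    fun_prop
  have hre : ∀ x : V, (z * Complex.exp (((-2 * Real.pi * inner ℝ x v : ℝ) : ℂ) *
      Complex.I)).re ≤ 1 := by
    intro x
    refine (Complex.re_le_norm _).trans ?_
    rw [norm_mul, hz, Complex.norm_exp_ofReal_mul_I, one_mul]
  have hg0 : 0 ≤ g := fun x => mul_nonneg (f.nonneg_normed x) (by linarith [hre x])
  have hgcomp : HasCompactSupport g := f.hasCompactSupport_normed.mul_right
  have hint1 : Integrable (fun x => z * (Complex.exp (((-2 * Real.pi * inner ℝ x v : ℝ) : ℂ) *
      Complex.I) * ((f.normed volume x : ℝ) : ℂ))) := by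
    refine Continuous.integrable_of_hasCompactSupport ?_ ?_
    · fun_prop
    · have : HasCompactSupport (fun x => ((f.normed volume x : ℝ) : ℂ)) :=
        f.hasCompactSupport_normed.comp_left Complex.ofReal_zero
      exact (this.mul_left).mul_left
  have hI : ∫ x, g x = 1 - ‖psi f v‖ := by
    have h1 : ∀ x, g x = f.normed volume x - (z * (Complex.exp (((-2 * Real.pi * inner ℝ x v : ℝ) : ℂ) *
      Complex.I) * ((f.normed volume x : ℝ) : ℂ))).re := by
      intro x
      rw [hg]
      simp only
      rw [← mul_assoc, mul_sub, mul_one, Complex.re_mul_ofReal]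
      ring
    simp only [h1]
    have h3 : Integrable (fun x => (z * (Complex.exp (((-2 * Real.pi * inner ℝ x v : ℝ) : ℂ) *
      Complex.I) * ((f.normed volume x : ℝ) : ℂ))).re) := hint1.re
    rw [integral_sub f.integrable_normed h3, f.integral_normed]
    congr 1
    have h2 : ∫ x, (z * (Complex.exp (((-2 * Real.pi * inner ℝ x v : ℝ) : ℂ) *
      Complex.I) * ((f.normed volume x : ℝ) : ℂ))).re = (∫ x, z * (Complex.exp
      (((-2 * Real.pi * inner ℝ x v : ℝ) : ℂ) * Complex.I) *
      ((f.normed volume x : ℝ) : ℂ))).re := integral_re hint1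
    rw [integral_const_mul, ← psi_apply, hzc] at h2
    simpa using h2
  have hpos : 0 < ∫ x, g x := by
    have hr := f.rOut_pos
    have hvn : 0 < ‖v‖ := norm_pos_iff.mpr hv
    by_cases hz1 : z.re = 1
    · -- test at a small multiple of v
      set ε : ℝ := min (f.rOut / (2 * ‖v‖)) (1 / (2 * ‖v‖ ^ 2)) with hε
      have hε0 : 0 < ε := by
        rw [hε]
        exact lt_min (by positivity) (by positivity)
      have hz2 : z = 1 := by
        have h3 : z.re ^ 2 + z.im ^ 2 = 1 := by
          have := Complex.sq_norm z
          rw [hz, Complex.normSq_apply] at this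
          nlinarith
        have h4 : z.im = 0 := by
          rw [hz1] at h3
          nlinarith
        exact Complex.ext (by simp [hz1]) (by simp [h4])
      refine hgc.integral_pos_of_hasCompactSupport_nonneg_nonzero hgcomp hg0 (x := ε • v) ?_
      rw [hg]
      simp only
      apply mul_ne_zero
      · have : ε • v ∈ Function.support (f.normed volume) := by
          rw [f.support_normed_eq, Metric.mem_ball, dist_zero_right, norm_smul,
            Real.norm_of_nonneg hε0.le]
          calc ε * ‖v‖ ≤ f.rOut / (2 * ‖v‖) * ‖v‖ :=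
                mul_le_mul_of_nonneg_right (min_le_left _ _) hvn.le
            _ = f.rOut / 2 := by field_simp
            _ < f.rOut := half_lt_self hr
        exact this
      · rw [hz2, one_mul, Complex.exp_ofReal_mul_I_re]
        intro h5
        have h6 : Real.cos (-2 * Real.pi * inner ℝ (ε • v) v) = 1 := by linarith
        have h7 : (-2 * Real.pi * inner ℝ (ε • v) v : ℝ) = -(2 * Real.pi * (ε * ‖v‖ ^ 2)) := by
          rw [real_inner_smul_left, real_inner_self_eq_norm_sq]
          ring
        rw [h7, Real.cos_neg] at h6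
        have h8 : ε * ‖v‖ ^ 2 ≤ 1 / 2 := by
          calc ε * ‖v‖ ^ 2 ≤ 1 / (2 * ‖v‖ ^ 2) * ‖v‖ ^ 2 :=
                mul_le_mul_of_nonneg_right (min_le_right _ _) (by positivity)
            _ = 1 / 2 := by field_simp
        have h9 : 0 < ε * ‖v‖ ^ 2 := by positivity
        have hpi := Real.pi_pos
        have h10 := (Real.cos_eq_one_iff_of_lt_of_lt (x := 2 * Real.pi * (ε * ‖v‖ ^ 2))
          (by nlinarith [mul_pos hpi h9]) (by nlinarith)).mp h6
        nlinarith [mul_pos hpi h9]
    · refine hgc.integral_pos_of_hasCompactSupport_nonneg_nonzero hgcomp hg0 (x := 0) ?_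
      rw [hg]
      simp only
      apply mul_ne_zero
      · have : (0 : V) ∈ Function.support (f.normed volume) := by
          rw [f.support_normed_eq]
          exact Metric.mem_ball_self hr
        exact this
      · simp only [inner_zero_left, mul_zero, Complex.ofReal_zero, zero_mul, Complex.exp_zero,
          mul_one]
        intro h
        exact hz1 (by linarith)
  rw [hI] at hpos
  linarith

end Pool.Agent.Run7.h987.BL
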